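import Pool.Agent.Y303.NL.Core

/-! Bounds for the explicit profile. -/

open Set Filter Topology
open scoped ContDiff

namespace Pool.Agent.Y303.NL.Core
open Pool.Agent.Helper566.Profile Pool.Agent.Helper566.Map Pool.Agent.Y303.NL

theorem ab {x y a b : ℝ} (hx : |x| ≤ a) (hy : |y| ≤ b) : |x * y| ≤ a * b :=
  (abs_mul x y).le.trans (mul_le_mul hx hy (abs_nonneg _) ((abs_nonneg _).trans hx))

theorem ad {x y a b : ℝ} (hx : |x| ≤ a) (hy : |y| ≤ b) : |x + y| ≤ a + b :=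
  (abs_add_le _ _).trans (add_le_add hx hy)

theorem sb {x y a b : ℝ} (hx : |x| ≤ a) (hy : |y| ≤ b) : |x - y| ≤ a + b :=
  (abs_sub _ _).trans (add_le_add hx hy)

theorem cb {x a : ℝ} (c : ℝ) (hx : |x| ≤ a) : |c * x| ≤ |c| * a :=
  (abs_mul c x).le.trans (mul_le_mul_of_nonneg_left hx (abs_nonneg _))

theorem kb {x a k : ℝ} (hk0 : 0 ≤ k) (hk1 : k ≤ 1) (hx : |x| ≤ a) : |k * x| ≤ a := by
  rw [abs_mul, abs_of_nonneg hk0]
  calc k * |x| ≤ 1 * |x| := by gcongr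
    _ ≤ a := by rw [one_mul]; exact hx

structure Bd (p : ℝ × ℝ) : Prop where
  S0 : 0 < s p.1
  S1 : s p.1 ≤ 1 / 10
  k0 : 0 ≤ 1 - p.2 * p.2
  k1 : 1 - p.2 * p.2 ≤ 1
  g1 : |p.2| ≤ 1
  f0 : |f0 p.1| ≤ s p.1 ^ 4
  f1 : |f1 p.1| ≤ 2 * s p.1 ^ 6
  f2 : |f2 p.1| ≤ 4 * s p.1 ^ 8

theorem mem_bd {p : ℝ × ℝ} (hp : p.1 ≥ 100 ∧ p.2 ^ 2 ≤ 1) : Bd p := by
  obtain ⟨h1, h2⟩ := hp
  have hp0 : 0 < p.1 := by linarith
  have hS := s_pos hp0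
  have hS1 : s p.1 ≤ 1 / 10 := by
    unfold s
    rw [one_div]
    apply inv_anti₀ (by norm_num)
    rw [show (10:ℝ) = Real.sqrt 100 by
      rw [show (100:ℝ) = 10 ^ 2 by norm_num, Real.sqrt_sq (by norm_num)]]
    exact Real.sqrt_le_sqrt h1
  have pw : ∀ k : ℕ, s p.1 ^ (k + 2) ≤ s p.1 ^ k / 100 := by
    intro k
    have e : s p.1 ^ (k + 2) = s p.1 ^ k * s p.1 ^ 2 := pow_add _ _ _
    rw [e, div_eq_mul_inv]
    refine mul_le_mul_of_nonneg_left ?_ (by positivity)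
    nlinarith
  have e4 := pw 4
  have e6 := pw 6
  have e8 := pw 8
  have e10 := pw 10
  have e12 := pw 12
  have p4 : 0 < s p.1 ^ 4 := by positivity
  have p6 : 0 < s p.1 ^ 6 := by positivity
  have p8 : 0 < s p.1 ^ 8 := by positivity
  have p10 : 0 < s p.1 ^ 10 := by positivity
  have p12 : 0 < s p.1 ^ 12 := by positivity
  have p14 : 0 < s p.1 ^ 14 := by positivity
  refine ⟨hS, hS1, ?_, ?_, ?_, ?_, ?_, ?_⟩
  · nlinarith
  · nlinarith [mul_self_nonneg p.2]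
  · exact (sq_le_one_iff_abs_le_one _).1 h2
  · rw [Core.f0, abs_le]; norm_num at *; constructor <;> linarith
  · rw [Core.f1, abs_le]; norm_num at *; constructor <;> linarith
  · rw [Core.f2, abs_le]; norm_num at *; constructor <;> linarith

namespace Bd
variable {p : ℝ × ℝ} (h : Bd p)
include h

theorem pl {i j : ℕ} (hij : i ≤ j) : s p.1 ^ j ≤ s p.1 ^ i :=
  pow_le_pow_of_le_one h.S0.le (by have := h.S1; linarith) hij

theorem pw (k : ℕ) : s p.1 ^ (k + 2) ≤ s p.1 ^ k / 100 := by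
  have e : s p.1 ^ (k + 2) = s p.1 ^ k * s p.1 ^ 2 := pow_add _ _ _
  have hS := h.S0
  have hS1 := h.S1
  rw [e, div_eq_mul_inv]
  refine mul_le_mul_of_nonneg_left ?_ (by positivity)
  nlinarith

theorem pp (k : ℕ) : |s p.1 ^ k| ≤ s p.1 ^ k := (abs_of_pos (pow_pos h.S0 k)).le

theorem p0 (k : ℕ) : 0 < s p.1 ^ k := pow_pos h.S0 k

theorem kf1 : |(1 - p.2 * p.2) * Core.f1 p.1| ≤ 2 * s p.1 ^ 6 := kb h.k0 h.k1 h.f1

theorem vt_le : |vt p| ≤ 2 * s p.1 ^ 2 := by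
  refine (sb (h.pp 2) h.kf1).trans ?_
  have := h.pw 4; have := h.pw 2; have := h.p0 2; have := h.p0 4
  norm_num at *; linarith

theorem vt_ge : s p.1 ^ 2 / 2 ≤ vt p := by
  have h1 := (abs_le.1 h.kf1).2
  have h2 : vt p = s p.1 ^ 2 - (1 - p.2 * p.2) * Core.f1 p.1 := rfl
  have := h.pw 4; have := h.pw 2; have := h.p0 2; have := h.p0 4
  norm_num at *; linarith

theorem vs_le : |vs p| ≤ 2 * s p.1 ^ 4 := by
  refine (cb 2 (ab h.g1 h.f0)).trans ?_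
  norm_num

theorem vtt_le : |vtt p| ≤ 2 * s p.1 ^ 4 := by
  have h4 : |-(s p.1 ^ 4)| ≤ s p.1 ^ 4 := by rw [abs_neg]; exact h.pp 4
  refine (sb h4 (kb h.k0 h.k1 h.f2)).trans ?_
  have := h.pw 6; have := h.pw 4; have := h.p0 4; have := h.p0 6
  norm_num at *; linarith

theorem vts_le : |vts p| ≤ 4 * s p.1 ^ 6 := by
  refine (cb 2 (ab h.g1 h.f1)).trans ?_
  norm_num; linarith

theorem vss_le : |vss p| ≤ 2 * s p.1 ^ 4 := by
  refine (cb 2 h.f0).trans ?_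
  norm_num

theorem z_le : |z p| ≤ 1 := by
  refine (ab h.g1 (h.pp 3)).trans ?_
  have := h.pl (show 0 ≤ 3 by norm_num)
  simpa using this

theorem zt_le : |zt p| ≤ 2 * s p.1 ^ 5 := by
  refine (cb (-(3 / 2)) (ab h.g1 (h.pp 5))).trans ?_
  have := h.p0 5
  rw [abs_neg, abs_of_pos (by norm_num : (0:ℝ) < 3 / 2)]; linarith

theorem zs_le : |zs p| ≤ s p.1 ^ 3 := h.pp 3

theorem ztt_le : |ztt p| ≤ 4 * s p.1 ^ 7 := by
  refine (cb (15 / 4) (ab h.g1 (h.pp 7))).trans ?_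
  have := h.p0 7
  rw [abs_of_pos (by norm_num : (0:ℝ) < 15 / 4)]; linarith

theorem zts_le : |zts p| ≤ 2 * s p.1 ^ 5 := by
  refine (cb (-(3 / 2)) (h.pp 5)).trans ?_
  have := h.p0 5
  rw [abs_neg, abs_of_pos (by norm_num : (0:ℝ) < 3 / 2)]; linarith

theorem Q_ge : s p.1 ^ 4 / 4 ≤ Q p := by
  have h1 := h.vt_ge
  have h2 := h.p0 2
  have h3 : 0 ≤ (1 - p.2 * p.2) * (vs p * vs p + zs p * zs p) :=
    mul_nonneg h.k0 (by nlinarith [mul_self_nonneg (vs p), mul_self_nonneg (zs p)])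
  have h4 := mul_self_nonneg (zt p)
  have h5 : s p.1 ^ 2 / 2 * (s p.1 ^ 2 / 2) ≤ vt p * vt p :=
    mul_le_mul h1 h1 (by linarith) (by linarith)
  have e : s p.1 ^ 2 / 2 * (s p.1 ^ 2 / 2) = s p.1 ^ 4 / 4 := by ring
  unfold Q; linarith

theorem Q_pos : 0 < Q p := lt_of_lt_of_le (by have := h.p0 4; linarith) h.Q_ge

theorem Qt_le : |Qt p| ≤ 20 * s p.1 ^ 6 := by
  refine (ad (cb 2 (ad (ab h.vt_le h.vtt_le) (ab h.zt_le h.ztt_le)))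
    (cb 2 (kb h.k0 h.k1 (ad (ab h.vs_le h.vts_le) (ab h.zs_le h.zts_le))))).trans ?_
  rw [abs_of_pos (by norm_num : (0:ℝ) < 2)]
  have := h.pw 6; have := h.pw 8; have := h.pw 10; have := h.p0 6; have := h.p0 8; have := h.p0 10
  norm_num at *; linarith

theorem Qs_le : |Qs p| ≤ 20 * s p.1 ^ 6 := by
  have h2 : |2 * p.2| ≤ 2 := by
    refine (cb 2 h.g1).trans ?_
    norm_num
  refine (sb (ad (cb 2 (ad (ab h.vt_le h.vts_le) (ab h.zt_le h.zts_le)))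
    (cb 2 (kb h.k0 h.k1 (ab h.vs_le h.vss_le))))
    (ab h2 (ad (ab h.vs_le h.vs_le) (ab h.zs_le h.zs_le)))).trans ?_
  rw [abs_of_pos (by norm_num : (0:ℝ) < 2)]
  have := h.pw 6; have := h.pw 8; have := h.pw 10; have := h.p0 6; have := h.p0 8; have := h.p0 10
  norm_num at *; linarith

theorem div_Q {x : ℝ} (hx : |x| ≤ 20 * s p.1 ^ 6) : |x / Q p| ≤ 80 * s p.1 ^ 2 := by
  rw [abs_div, abs_of_pos h.Q_pos, div_le_iff₀ h.Q_pos]
  have h1 := h.Q_ge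
  have h2 := h.p0 2
  calc |x| ≤ 20 * s p.1 ^ 6 := hx
    _ = 80 * s p.1 ^ 2 * (s p.1 ^ 4 / 4) := by ring
    _ ≤ 80 * s p.1 ^ 2 * Q p := by gcongr

theorem Fv_le {N : ℝ} (hN : 3 ≤ N) : |Fv N p| ≤ 300 * N * s p.1 ^ 4 := by
  have hN1 : |N - 1| ≤ N := by rw [abs_of_pos (by linarith)]; linarith
  have hN2 : |(N - 2) / 2| ≤ N := by rw [abs_of_pos (by linarith)]; linarith
  have e1 : (Qt p * vt p + (1 - p.2 * p.2) * Qs p * vs p) / Q p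
      = Qt p / Q p * vt p + (1 - p.2 * p.2) * (Qs p / Q p * vs p) := by ring
  have h1 := ad (ab (h.div_Q h.Qt_le) h.vt_le) (kb h.k0 h.k1 (ab (h.div_Q h.Qs_le) h.vs_le))
  have h2 : |Qt p / Q p * vt p + (1 - p.2 * p.2) * (Qs p / Q p * vs p)| ≤ 170 * s p.1 ^ 4 := by
    refine h1.trans ?_
    have := h.pw 4; have := h.p0 4; have := h.p0 6
    norm_num at *; linarith
  unfold Fv
  rw [e1]
  have e3 : (N - 1) * p.2 * vs p = (N - 1) * (p.2 * vs p) := by ring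
  rw [e3]
  refine (ad (sb (ad h.vtt_le (kb h.k0 h.k1 h.vss_le)) (ab hN1 (ab h.g1 h.vs_le)))
    (ab hN2 h2)).trans ?_
  have := h.p0 4
  have : 3 * s p.1 ^ 4 ≤ N * s p.1 ^ 4 := by gcongr
  linarith

theorem Fz_le {N : ℝ} (hN : 3 ≤ N) : |Fz N p| ≤ 300 * N * s p.1 ^ 3 := by
  have hN1 : |N - 1| ≤ N := by rw [abs_of_pos (by linarith)]; linarith
  have hN2 : |(N - 2) / 2| ≤ N := by rw [abs_of_pos (by linarith)]; linarith
  have e1 : (Qt p * zt p + (1 - p.2 * p.2) * Qs p * zs p) / Q p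
      = Qt p / Q p * zt p + (1 - p.2 * p.2) * (Qs p / Q p * zs p) := by ring
  have h1 := ad (ab (h.div_Q h.Qt_le) h.zt_le) (kb h.k0 h.k1 (ab (h.div_Q h.Qs_le) h.zs_le))
  have h2 : |Qt p / Q p * zt p + (1 - p.2 * p.2) * (Qs p / Q p * zs p)| ≤ 170 * s p.1 ^ 3 := by
    refine h1.trans ?_
    have := h.pw 5; have := h.pw 3; have := h.p0 3; have := h.p0 5; have := h.p0 7
    norm_num at *; linarith
  unfold Fz
  rw [e1]
  have e3 : (N - 1) * p.2 * zs p = (N - 1) * (p.2 * zs p) := by ring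
  rw [e3]
  refine (ad (sb h.ztt_le (ab hN1 (ab h.g1 h.zs_le))) (ab hN2 h2)).trans ?_
  have := h.p0 3
  have := h.pl (show 3 ≤ 7 by norm_num)
  have : 3 * s p.1 ^ 3 ≤ N * s p.1 ^ 3 := by gcongr
  linarith

theorem An_le {N : ℝ} (hN : 3 ≤ N) : |An N p| ≤ 1000 * N * s p.1 ^ 6 := by
  refine (ad (ab (h.Fv_le hN) h.vs_le) (ab (h.Fz_le hN) h.zs_le)).trans ?_
  have := h.p0 6
  have h1 : N * s p.1 ^ 8 ≤ N * s p.1 ^ 6 :=
    mul_le_mul_of_nonneg_left (h.pl (show 6 ≤ 8 by norm_num)) (by linarith)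
  have : 0 < N * s p.1 ^ 6 := by positivity
  linarith

theorem Hn_le {N : ℝ} (hN : 3 ≤ N) : |Hn N p| ≤ 1000 * N * s p.1 ^ 6 := by
  have hN1 : |N - 1| ≤ N := by rw [abs_of_pos (by linarith)]; linarith
  have hN2' : |N - 2| ≤ N := by rw [abs_of_pos (by linarith)]; linarith
  have hN2 : |(N - 2) / 2| ≤ N := by rw [abs_of_pos (by linarith)]; linarith
  have a1 : |Core.f2 p.1 - 2 * Core.f0 p.1| ≤ 3 * s p.1 ^ 4 := by
    refine (sb h.f2 (cb 2 h.f0)).trans ?_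
    rw [abs_of_pos (by norm_num : (0:ℝ) < 2)]
    have := h.pw 6; have := h.pw 4; have := h.p0 6; have := h.p0 4; have := h.p0 8
    norm_num at *; linarith
  have a2 : |3 / 2 * s p.1 ^ 6 - 45 / 8 * s p.1 ^ 10| ≤ 2 * s p.1 ^ 6 := by
    rw [abs_le]
    have := h.pw 6; have := h.pw 8; have := h.p0 6; have := h.p0 8; have := h.p0 10
    norm_num at *; constructor <;> linarith
  have a3 : |-(s p.1 ^ 2 * (Core.f2 p.1 - 2 * Core.f0 p.1))| ≤ s p.1 ^ 2 * (3 * s p.1 ^ 4) := by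
    rw [abs_neg]; exact ab (h.pp 2) a1
  have a4 : |(1 - p.2 * p.2) * Core.f1 p.1 * (Core.f2 p.1 - 2 * Core.f0 p.1)|
      ≤ 2 * s p.1 ^ 6 * (3 * s p.1 ^ 4) := ab h.kf1 a1
  have b1 := ab hN1 (sb (ad (ad a3 (ab h.f1 a2)) a4) (ab (h.pp 2) a2))
  have b2 := ab h.vss_le h.vt_le
  have b3 := ab hN2' (ad (ab h.vs_le h.vts_le) (ab h.zs_le h.zts_le))
  have b4 := ab (ab hN2 (h.div_Q h.Qt_le)) (ad (ab h.vs_le h.vs_le) (ab h.zs_le h.zs_le))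
  have b5 := ab (ab hN2 (h.div_Q h.Qs_le)) (ad (ab h.vs_le h.vt_le) (ab h.zs_le h.zt_le))
  unfold Hn
  refine (ad (sb (ad (ad b1 b2) b3) b4) b5).trans ?_
  have hp6 := h.p0 6
  have q8 : N * s p.1 ^ 8 ≤ N * s p.1 ^ 6 :=
    mul_le_mul_of_nonneg_left (h.pl (show 6 ≤ 8 by norm_num)) (by linarith)
  have q10 : N * s p.1 ^ 10 ≤ N * s p.1 ^ 6 :=
    mul_le_mul_of_nonneg_left (h.pl (show 6 ≤ 10 by norm_num)) (by linarith)
  have q12 : N * s p.1 ^ 12 ≤ N * s p.1 ^ 6 :=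
    mul_le_mul_of_nonneg_left (h.pl (show 6 ≤ 12 by norm_num)) (by linarith)
  have q6 : 3 * s p.1 ^ 6 ≤ N * s p.1 ^ 6 := by gcongr
  linarith

theorem J_ge : s p.1 ^ 5 / 4 ≤ J p := by
  have h1 := h.vt_ge
  have h2 : s p.1 ^ 2 / 2 * s p.1 ^ 3 ≤ vt p * zs p :=
    mul_le_mul_of_nonneg_right h1 (h.p0 3).le
  have h3 := (abs_le.1 (ab h.zt_le h.vs_le)).2
  have := h.pw 7; have := h.pw 5; have := h.p0 5; have := h.p0 7; have := h.p0 9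
  have e : s p.1 ^ 2 / 2 * s p.1 ^ 3 = s p.1 ^ 5 / 2 := by ring
  have e2 : 2 * s p.1 ^ 5 * (2 * s p.1 ^ 4) = 4 * s p.1 ^ 9 := by ring
  unfold J
  norm_num at *; linarith

theorem J_pos : 0 < J p := lt_of_lt_of_le (by have := h.p0 5; linarith) h.J_ge

theorem div_J {x N : ℝ} (hN : 3 ≤ N) (hx : |x| ≤ 1000 * N * s p.1 ^ 6) :
    |x / J p| ≤ 4000 * N * s p.1 := by
  rw [abs_div, abs_of_pos h.J_pos, div_le_iff₀ h.J_pos]
  have h1 := h.J_ge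
  have h2 := h.S0
  calc |x| ≤ 1000 * N * s p.1 ^ 6 := hx
    _ = 4000 * N * s p.1 * (s p.1 ^ 5 / 4) := by ring
    _ ≤ 4000 * N * s p.1 * J p := by gcongr

theorem Ac_le {N : ℝ} (hN : 3 ≤ N) : |Ac N p| ≤ 4000 * N * s p.1 := h.div_J hN (h.An_le hN)

theorem Bc_le {N : ℝ} (hN : 3 ≤ N) : |Bc N p| ≤ 4000 * N * s p.1 := by
  rw [Bc, abs_neg]
  exact h.div_J hN (h.Hn_le hN)

end Bd

theorem cd_J {p : ℝ × ℝ} (hp : 0 < p.1) : ContDiffAt ℝ ∞ J p :=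
  ((cd_vt hp).mul (cd_zs hp)).sub ((cd_zt hp).mul (cd_vs hp))

theorem cd_Fv (N : ℝ) {p : ℝ × ℝ} (hp : 0 < p.1) (hQ : Q p ≠ 0) : ContDiffAt ℝ ∞ (Fv N) p := by
  unfold Fv
  exact (((cd_vtt hp).add (cd_k.mul (cd_vss hp))).sub
    ((contDiffAt_const.mul cd_sg).mul (cd_vs hp))).add (contDiffAt_const.mul
    ((((cd_Qt hp).mul (cd_vt hp)).add ((cd_k.mul (cd_Qs hp)).mul (cd_vs hp))).div (cd_Q hp) hQ))

theorem cd_Fz (N : ℝ) {p : ℝ × ℝ} (hp : 0 < p.1) (hQ : Q p ≠ 0) : ContDiffAt ℝ ∞ (Fz N) p := by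
  unfold Fz
  exact ((cd_ztt hp).sub
    ((contDiffAt_const.mul cd_sg).mul (cd_zs hp))).add (contDiffAt_const.mul
    ((((cd_Qt hp).mul (cd_zt hp)).add ((cd_k.mul (cd_Qs hp)).mul (cd_zs hp))).div (cd_Q hp) hQ))

theorem cd_Ac (N : ℝ) {p : ℝ × ℝ} (hp : 0 < p.1) (hQ : Q p ≠ 0) (hJ : J p ≠ 0) :
    ContDiffAt ℝ ∞ (Ac N) p := by
  unfold Ac An
  exact (((cd_Fv N hp hQ).mul (cd_vs hp)).add ((cd_Fz N hp hQ).mul (cd_zs hp))).div (cd_J hp) hJ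

theorem cd_Bc (N : ℝ) {p : ℝ × ℝ} (hp : 0 < p.1) (hQ : Q p ≠ 0) (hJ : J p ≠ 0) :
    ContDiffAt ℝ ∞ (Bc N) p := by
  have h0 := cd_f0 hp
  have h1 := cd_f1 hp
  have h2 := cd_f2 hp
  have hs := cd_s hp
  unfold Bc Hn
  refine (ContDiffAt.div ?_ (cd_J hp) hJ).neg
  have hd : ContDiffAt ℝ ∞ (fun q : ℝ × ℝ => f2 q.1 - 2 * f0 q.1) p :=
    h2.sub (contDiffAt_const.mul h0)
  have hm : ContDiffAt ℝ ∞ (fun q : ℝ × ℝ => 3 / 2 * s q.1 ^ 6 - 45 / 8 * s q.1 ^ 10) p :=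
    (contDiffAt_const.mul (hs.pow 6)).sub (contDiffAt_const.mul (hs.pow 10))
  exact ((((contDiffAt_const.mul (((((hs.pow 2).mul hd).neg).add (h1.mul hm)).add
      ((cd_k.mul h1).mul hd) |>.sub ((hs.pow 2).mul hm))).add
    ((cd_vss hp).mul (cd_vt hp))).add
    (contDiffAt_const.mul (((cd_vs hp).mul (cd_vts hp)).add ((cd_zs hp).mul (cd_zts hp))))).sub
    ((contDiffAt_const.mul ((cd_Qt hp).div (cd_Q hp) hQ)).mul
      (((cd_vs hp).mul (cd_vs hp)).add ((cd_zs hp).mul (cd_zs hp))))).add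
    ((contDiffAt_const.mul ((cd_Qs hp).div (cd_Q hp) hQ)).mul
      (((cd_vs hp).mul (cd_vt hp)).add ((cd_zs hp).mul (cd_zt hp))))

end Pool.Agent.Y303.NL.Core
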