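import Pool.Agent.Y303.NL.Jet

/-! The explicit profile `v = log t - (1 - σ²) f(t)`, `z = σ t^{-3/2}`. -/

open Set Filter Topology
open scoped ContDiff

namespace Pool.Agent.Y303.NL.Core
open Pool.Agent.Helper566.Profile Pool.Agent.Helper566.Map Pool.Agent.Y303.NL

/-- correction profile -/
noncomputable def f0 (t : ℝ) : ℝ := 1 / 2 * (-(s t ^ 4) + 3 / 2 * s t ^ 6 - 45 / 8 * s t ^ 10)
/-- its derivative -/
noncomputable def f1 (t : ℝ) : ℝ := 1 / 2 * (2 * s t ^ 6 - 9 / 2 * s t ^ 8 + 225 / 8 * s t ^ 12)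
/-- its second derivative -/
noncomputable def f2 (t : ℝ) : ℝ := 1 / 2 * (-6 * s t ^ 8 + 18 * s t ^ 10 - 675 / 4 * s t ^ 14)

theorem hasDerivAt_f0 {t : ℝ} (ht : 0 < t) : HasDerivAt f0 (f1 t) t := by
  have h := (((hasDerivAt_s_pow ht 4).neg.add ((hasDerivAt_s_pow ht 6).const_mul (3 / 2))).sub
    ((hasDerivAt_s_pow ht 10).const_mul (45 / 8))).const_mul (1 / 2)
  refine h.congr_deriv ?_
  rw [f1]
  push_cast
  ring

theorem hasDerivAt_f1 {t : ℝ} (ht : 0 < t) : HasDerivAt f1 (f2 t) t := by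
  have h := ((((hasDerivAt_s_pow ht 6).const_mul 2).sub
    ((hasDerivAt_s_pow ht 8).const_mul (9 / 2))).add
    ((hasDerivAt_s_pow ht 12).const_mul (225 / 8))).const_mul (1 / 2)
  refine h.congr_deriv ?_
  rw [f2]
  push_cast
  ring

noncomputable def v (p : ℝ × ℝ) : ℝ := Real.log p.1 - (1 - p.2 * p.2) * f0 p.1
noncomputable def vt (p : ℝ × ℝ) : ℝ := s p.1 ^ 2 - (1 - p.2 * p.2) * f1 p.1
noncomputable def vs (p : ℝ × ℝ) : ℝ := 2 * (p.2 * f0 p.1)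
noncomputable def vtt (p : ℝ × ℝ) : ℝ := -(s p.1 ^ 4) - (1 - p.2 * p.2) * f2 p.1
noncomputable def vts (p : ℝ × ℝ) : ℝ := 2 * (p.2 * f1 p.1)
noncomputable def vss (p : ℝ × ℝ) : ℝ := 2 * f0 p.1
noncomputable def z (p : ℝ × ℝ) : ℝ := p.2 * s p.1 ^ 3
noncomputable def zt (p : ℝ × ℝ) : ℝ := -(3 / 2) * (p.2 * s p.1 ^ 5)
noncomputable def zs (p : ℝ × ℝ) : ℝ := s p.1 ^ 3
noncomputable def ztt (p : ℝ × ℝ) : ℝ := 15 / 4 * (p.2 * s p.1 ^ 7)
noncomputable def zts (p : ℝ × ℝ) : ℝ := -(3 / 2) * s p.1 ^ 5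

section
variable {p : ℝ × ℝ} (hp : 0 < p.1)
include hp

theorem D2_s (k : ℕ) : D2 (fun q => s q.1 ^ k) (fun q => -(k / 2) * s q.1 ^ (k + 2)) (fun _ => 0) p :=
  D2.tv (a := fun t => s t ^ k) (a' := fun t => -(k / 2) * s t ^ (k + 2)) (hasDerivAt_s_pow hp k)

omit hp in
theorem D2_k : D2 (fun q => 1 - q.2 * q.2) (fun _ => 0) (fun q => -(2 * q.2)) p :=
  ((D2.const 1).sub (D2.sv.mul D2.sv)).congr (by ring) (by ring)

theorem D2_f0 : D2 (fun q => f0 q.1) (fun q => f1 q.1) (fun _ => 0) p :=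
  D2.tv (a := f0) (a' := f1) (hasDerivAt_f0 hp)

theorem D2_f1 : D2 (fun q => f1 q.1) (fun q => f2 q.1) (fun _ => 0) p :=
  D2.tv (a := f1) (a' := f2) (hasDerivAt_f1 hp)

theorem D2_v : D2 v vt vs p := by
  refine ((D2.tv (a := Real.log) (a' := fun t => t⁻¹) (Real.hasDerivAt_log hp.ne')).sub
    (D2_k.mul (D2_f0 hp))).congr ?_ ?_
  · simp only [vt, s_sq hp]; ring
  · simp only [vs]; ring

theorem D2_vt : D2 vt vtt vts p := by
  refine ((D2_s hp 2).sub (D2_k.mul (D2_f1 hp))).congr ?_ ?_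
  · simp only [vtt]; push_cast; ring
  · simp only [vts]; ring

theorem D2_vs : D2 vs vts vss p := by
  refine (D2.cmul 2 (D2.sv.mul (D2_f0 hp))).congr ?_ ?_
  · simp only [vts]; ring
  · simp only [vss]; ring

theorem D2_z : D2 z zt zs p := by
  refine (D2.sv.mul (D2_s hp 3)).congr ?_ ?_
  · simp only [zt]; push_cast; ring
  · simp only [zs]; ring

theorem D2_zt : D2 zt ztt zts p := by
  refine (D2.cmul (-(3 / 2)) (D2.sv.mul (D2_s hp 5))).congr ?_ ?_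
  · simp only [ztt]; push_cast; ring
  · simp only [zts]; ring

theorem D2_zs : D2 zs zts (fun _ => 0) p := by
  refine (D2_s hp 3).congr ?_ ?_
  · simp only [zts]; push_cast; ring
  · simp only []

theorem cd_s : ContDiffAt ℝ ∞ (fun q : ℝ × ℝ => s q.1) p :=
  (contDiffAt_s hp).comp p contDiffAt_fst

theorem cd_f0 : ContDiffAt ℝ ∞ (fun q : ℝ × ℝ => f0 q.1) p := by
  have h := cd_s hp
  unfold f0
  exact contDiffAt_const.mul (((h.pow 4).neg.add (contDiffAt_const.mul (h.pow 6))).sub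
    (contDiffAt_const.mul (h.pow 10)))

theorem cd_f1 : ContDiffAt ℝ ∞ (fun q : ℝ × ℝ => f1 q.1) p := by
  have h := cd_s hp
  unfold f1
  exact contDiffAt_const.mul (((contDiffAt_const.mul (h.pow 6)).sub
    (contDiffAt_const.mul (h.pow 8))).add (contDiffAt_const.mul (h.pow 12)))

theorem cd_f2 : ContDiffAt ℝ ∞ (fun q : ℝ × ℝ => f2 q.1) p := by
  have h := cd_s hp
  unfold f2
  exact contDiffAt_const.mul (((contDiffAt_const.mul (h.pow 8)).add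
    (contDiffAt_const.mul (h.pow 10))).sub (contDiffAt_const.mul (h.pow 14)))

omit hp in
theorem cd_sg : ContDiffAt ℝ ∞ (fun q : ℝ × ℝ => q.2) p := contDiffAt_snd

omit hp in
theorem cd_k : ContDiffAt ℝ ∞ (fun q : ℝ × ℝ => 1 - q.2 * q.2) p :=
  contDiffAt_const.sub (cd_sg.mul cd_sg)

theorem cd_v : ContDiffAt ℝ ∞ v p := by
  have h1 : ContDiffAt ℝ ∞ (fun q : ℝ × ℝ => Real.log q.1) p := contDiffAt_fst.log hp.ne'
  exact h1.sub (cd_k.mul (cd_f0 hp))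

theorem cd_vt : ContDiffAt ℝ ∞ vt p := ((cd_s hp).pow 2).sub (cd_k.mul (cd_f1 hp))

theorem cd_vs : ContDiffAt ℝ ∞ vs p := contDiffAt_const.mul (cd_sg.mul (cd_f0 hp))

theorem cd_vtt : ContDiffAt ℝ ∞ vtt p := ((cd_s hp).pow 4).neg.sub (cd_k.mul (cd_f2 hp))

theorem cd_vts : ContDiffAt ℝ ∞ vts p := contDiffAt_const.mul (cd_sg.mul (cd_f1 hp))

theorem cd_vss : ContDiffAt ℝ ∞ vss p := contDiffAt_const.mul (cd_f0 hp)

theorem cd_z : ContDiffAt ℝ ∞ z p := cd_sg.mul ((cd_s hp).pow 3)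

theorem cd_zt : ContDiffAt ℝ ∞ zt p := contDiffAt_const.mul (cd_sg.mul ((cd_s hp).pow 5))

theorem cd_zs : ContDiffAt ℝ ∞ zs p := (cd_s hp).pow 3

theorem cd_ztt : ContDiffAt ℝ ∞ ztt p := contDiffAt_const.mul (cd_sg.mul ((cd_s hp).pow 7))

theorem cd_zts : ContDiffAt ℝ ∞ zts p := contDiffAt_const.mul ((cd_s hp).pow 5)

end

/-- `|∇̃u|²` -/
noncomputable def Q (p : ℝ × ℝ) : ℝ := vt p * vt p + zt p * zt p
  + (1 - p.2 * p.2) * (vs p * vs p + zs p * zs p)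
noncomputable def Qt (p : ℝ × ℝ) : ℝ := 2 * (vt p * vtt p + zt p * ztt p)
  + 2 * ((1 - p.2 * p.2) * (vs p * vts p + zs p * zts p))
noncomputable def Qs (p : ℝ × ℝ) : ℝ := 2 * (vt p * vts p + zt p * zts p)
  + 2 * ((1 - p.2 * p.2) * (vs p * vss p)) - 2 * p.2 * (vs p * vs p + zs p * zs p)

theorem D2_Q {p : ℝ × ℝ} (hp : 0 < p.1) : D2 Q Qt Qs p := by
  have a1 := D2_vt hp
  have a2 := D2_zt hp
  have a3 := D2_vs hp
  have a4 := D2_zs hp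
  refine (((a1.mul a1).add (a2.mul a2)).add (D2_k.mul ((a3.mul a3).add (a4.mul a4)))).congr ?_ ?_
  · simp only [Qt]; ring
  · simp only [Qs]; ring

theorem cd_Q {p : ℝ × ℝ} (hp : 0 < p.1) : ContDiffAt ℝ ∞ Q p :=
  (((cd_vt hp).mul (cd_vt hp)).add ((cd_zt hp).mul (cd_zt hp))).add
    (cd_k.mul (((cd_vs hp).mul (cd_vs hp)).add ((cd_zs hp).mul (cd_zs hp))))

theorem cd_Qt {p : ℝ × ℝ} (hp : 0 < p.1) : ContDiffAt ℝ ∞ Qt p :=
  (contDiffAt_const.mul (((cd_vt hp).mul (cd_vtt hp)).add ((cd_zt hp).mul (cd_ztt hp)))).add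
    (contDiffAt_const.mul (cd_k.mul (((cd_vs hp).mul (cd_vts hp)).add ((cd_zs hp).mul (cd_zts hp)))))

theorem cd_Qs {p : ℝ × ℝ} (hp : 0 < p.1) : ContDiffAt ℝ ∞ Qs p :=
  ((contDiffAt_const.mul (((cd_vt hp).mul (cd_vts hp)).add ((cd_zt hp).mul (cd_zts hp)))).add
    (contDiffAt_const.mul (cd_k.mul ((cd_vs hp).mul (cd_vss hp))))).sub
    ((contDiffAt_const.mul cd_sg).mul (((cd_vs hp).mul (cd_vs hp)).add ((cd_zs hp).mul (cd_zs hp))))

/-- Jacobian -/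
noncomputable def J (p : ℝ × ℝ) : ℝ := vt p * zs p - zt p * vs p

/-- `F̃` for `v` (`N` stands for the dimension) -/
noncomputable def Fv (N : ℝ) (p : ℝ × ℝ) : ℝ := vtt p + (1 - p.2 * p.2) * vss p
  - (N - 1) * p.2 * vs p + (N - 2) / 2 * ((Qt p * vt p + (1 - p.2 * p.2) * Qs p * vs p) / Q p)
/-- `F̃` for `z` -/
noncomputable def Fz (N : ℝ) (p : ℝ × ℝ) : ℝ := ztt p
  - (N - 1) * p.2 * zs p + (N - 2) / 2 * ((Qt p * zt p + (1 - p.2 * p.2) * Qs p * zs p) / Q p)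

/-- `F̃·u_σ` -/
noncomputable def An (N : ℝ) (p : ℝ × ℝ) : ℝ := Fv N p * vs p + Fz N p * zs p

/-- `F̃·u_t / (1 - σ²)` -/
noncomputable def Hn (N : ℝ) (p : ℝ × ℝ) : ℝ :=
  (N - 1) * (-(s p.1 ^ 2 * (f2 p.1 - 2 * f0 p.1))
      + f1 p.1 * (3 / 2 * s p.1 ^ 6 - 45 / 8 * s p.1 ^ 10)
      + (1 - p.2 * p.2) * f1 p.1 * (f2 p.1 - 2 * f0 p.1)
      - s p.1 ^ 2 * (3 / 2 * s p.1 ^ 6 - 45 / 8 * s p.1 ^ 10))
    + vss p * vt p + (N - 2) * (vs p * vts p + zs p * zts p)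
    - (N - 2) / 2 * (Qt p / Q p) * (vs p * vs p + zs p * zs p)
    + (N - 2) / 2 * (Qs p / Q p) * (vs p * vt p + zs p * zt p)

/-- coefficient of `∇τ` in the potential -/
noncomputable def Ac (N : ℝ) (p : ℝ × ℝ) : ℝ := An N p / J p
/-- coefficient of `∇σ` in the potential -/
noncomputable def Bc (N : ℝ) (p : ℝ × ℝ) : ℝ := -(Hn N p / J p)

theorem Hn_eq (N : ℝ) {p : ℝ × ℝ} (hQ : Q p ≠ 0) :
    (1 - p.2 * p.2) * Hn N p = Fv N p * vt p + Fz N p * zt p := by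
  have h1 : (vt p * vt p + zt p * zt p) = Q p - (1 - p.2 * p.2) * (vs p * vs p + zs p * zs p) := by
    unfold Q; ring
  have h2 : vt p * (vtt p - p.2 * vs p) + zt p * (ztt p - p.2 * zs p)
      = (1 - p.2 * p.2) * (-(s p.1 ^ 2 * (f2 p.1 - 2 * f0 p.1))
      + f1 p.1 * (3 / 2 * s p.1 ^ 6 - 45 / 8 * s p.1 ^ 10)
      + (1 - p.2 * p.2) * f1 p.1 * (f2 p.1 - 2 * f0 p.1)
      - s p.1 ^ 2 * (3 / 2 * s p.1 ^ 6 - 45 / 8 * s p.1 ^ 10)) := by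
    unfold vt vtt vs zt ztt zs
    have e : f0 p.1 = 1 / 2 * (-(s p.1 ^ 4) + 3 / 2 * s p.1 ^ 6 - 45 / 8 * s p.1 ^ 10) := rfl
    linear_combination (-2 * p.2 ^ 2 * s p.1 ^ 2 + 2 * p.2 ^ 2 * (1 - p.2 * p.2) * f1 p.1
      - 2 * (1 - p.2 * p.2) * s p.1 ^ 2 + 2 * (1 - p.2 * p.2) ^ 2 * f1 p.1) * e
  have h3 : Qt p / Q p * Q p = Qt p := div_mul_cancel₀ _ hQ
  have e1 : (Qt p * vt p + (1 - p.2 * p.2) * Qs p * vs p) / Q p
      = Qt p / Q p * vt p + (1 - p.2 * p.2) * (Qs p / Q p) * vs p := by ring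
  have e2 : (Qt p * zt p + (1 - p.2 * p.2) * Qs p * zs p) / Q p
      = Qt p / Q p * zt p + (1 - p.2 * p.2) * (Qs p / Q p) * zs p := by ring
  have e3 : Qt p = 2 * (vt p * vtt p + zt p * ztt p)
    + 2 * ((1 - p.2 * p.2) * (vs p * vts p + zs p * zts p)) := rfl
  unfold Hn Fv Fz
  rw [e1, e2]
  generalize Qt p / Q p = a at h3 ⊢
  generalize Qs p / Q p = b
  linear_combination (-(N - 1)) * h2 - (N - 2) / 2 * a * h1 - (N - 2) / 2 * h3 - (N - 2) / 2 * e3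

theorem eq_v (N : ℝ) {p : ℝ × ℝ} (hQ : Q p ≠ 0) (hJ : J p ≠ 0) :
    Fv N p = -(Ac N p * zt p + (1 - p.2 * p.2) * (Bc N p * zs p)) := by
  have h := Hn_eq N hQ
  have hJ' : J p = vt p * zs p - zt p * vs p := rfl
  have e : -(Ac N p * zt p + (1 - p.2 * p.2) * (Bc N p * zs p))
      = ((1 - p.2 * p.2) * Hn N p * zs p - An N p * zt p) / J p := by
    unfold Ac Bc; ring
  rw [e, h, eq_div_iff hJ, hJ', An]
  ring

theorem eq_z (N : ℝ) {p : ℝ × ℝ} (hQ : Q p ≠ 0) (hJ : J p ≠ 0) :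
    Fz N p = Ac N p * vt p + (1 - p.2 * p.2) * (Bc N p * vs p) := by
  have h := Hn_eq N hQ
  have hJ' : J p = vt p * zs p - zt p * vs p := rfl
  have e : Ac N p * vt p + (1 - p.2 * p.2) * (Bc N p * vs p)
      = (An N p * vt p - (1 - p.2 * p.2) * Hn N p * vs p) / J p := by
    unfold Ac Bc; ring
  rw [e, h, eq_div_iff hJ, hJ', An]
  ring

end Pool.Agent.Y303.NL.Core
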