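import Pool.Agent.Y303.NL.Three

/-! All numbers of components `m ≥ 2`. -/

open MeasureTheory Set Filter Topology Metric
open scoped ContDiff

namespace Pool.Agent.Y303.NL
open Pool.Agent.Helper566.Profile Pool.Agent.Helper566.Map Pool.Agent.Y303.NL.Core

theorem exists_bdd {n : ℕ} (hn : 3 ≤ n) (k : ℕ) :
    ∃ S : Fr n (k + 3) 100 (4000 * n), ∀ i, ∀ p ∈ Rg 100, |S.U i p| ≤ 1 := by
  induction k with
  | zero =>
    refine ⟨three hn, forall3 (fun p _ => cv_le p) (fun p _ => sv_le p)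
      (fun p hp => (mem_Rg hp).z_le)⟩
  | succ k ih =>
    obtain ⟨S, hS⟩ := ih
    refine ⟨S.pad, fun i p hp => ?_⟩
    refine Fin.cases ?_ (fun j => ?_) i
    · change |(0:ℝ)| ≤ 1
      simp
    · exact hS j p hp

theorem exists_all {n m : ℕ} (hn : 3 ≤ n) (hm : 2 ≤ m) :
    ∃ S : Fr n m 100 (4000 * n), 3 ≤ m → ∀ i, ∀ p ∈ Rg 100, |S.U i p| ≤ 1 := by
  rcases Nat.lt_or_ge m 3 with h | h
  · obtain rfl : m = 2 := by omega
    exact ⟨two hn, fun h3 => by omega⟩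
  · obtain ⟨k, rfl⟩ : ∃ k, m = k + 3 := ⟨m - 3, by omega⟩
    obtain ⟨S, hS⟩ := exists_bdd hn k
    exact ⟨S, fun _ => hS⟩

end Pool.Agent.Y303.NL
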