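import Pool.Agent.Y303.NL.Jet

/-! Solutions of `n`-Laplace systems with antisymmetric potential of the form
`u = U(τ, σ)`, `Ω = A(τ, σ) ∇τ + B(τ, σ) ∇σ`. -/

open MeasureTheory Set Filter Topology Metric
open scoped RealInnerProductSpace ContDiff

namespace Pool.Agent.Y303.NL
open Pool.Agent.Helper566.Profile Pool.Agent.Helper566.Map

/-- the region `t ≥ T0`, `|σ| ≤ 1` -/
def Rg (T0 : ℝ) : Set (ℝ × ℝ) := {p | T0 ≤ p.1 ∧ p.2 ^ 2 ≤ 1}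

/-- data of a solution -/
structure Fr (n m : ℕ) (T0 C : ℝ) where
  U : Fin m → ℝ × ℝ → ℝ
  Ut : Fin m → ℝ × ℝ → ℝ
  Us : Fin m → ℝ × ℝ → ℝ
  Utt : Fin m → ℝ × ℝ → ℝ
  Uts : Fin m → ℝ × ℝ → ℝ
  Ust : Fin m → ℝ × ℝ → ℝ
  Uss : Fin m → ℝ × ℝ → ℝ
  A : Fin m → Fin m → ℝ × ℝ → ℝ
  B : Fin m → Fin m → ℝ × ℝ → ℝ
  Q : ℝ × ℝ → ℝ
  Qt : ℝ × ℝ → ℝ
  Qs : ℝ × ℝ → ℝ
  T1 : 1 ≤ T0
  C0 : 0 ≤ C
  dU : ∀ i, ∀ p ∈ Rg T0, D2 (U i) (Ut i) (Us i) p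
  dUt : ∀ i, ∀ p ∈ Rg T0, D2 (Ut i) (Utt i) (Uts i) p
  dUs : ∀ i, ∀ p ∈ Rg T0, D2 (Us i) (Ust i) (Uss i) p
  dQ : ∀ p ∈ Rg T0, D2 Q Qt Qs p
  cU : ∀ i, ∀ p ∈ Rg T0, ContDiffAt ℝ ∞ (U i) p
  cUt : ∀ i, ∀ p ∈ Rg T0, ContDiffAt ℝ ∞ (Ut i) p
  cUs : ∀ i, ∀ p ∈ Rg T0, ContDiffAt ℝ ∞ (Us i) p
  cQ : ∀ p ∈ Rg T0, ContDiffAt ℝ ∞ Q p
  cA : ∀ i j, ∀ p ∈ Rg T0, ContDiffAt ℝ ∞ (A i j) p
  cB : ∀ i j, ∀ p ∈ Rg T0, ContDiffAt ℝ ∞ (B i j) p
  Qpos : ∀ p ∈ Rg T0, 0 < Q p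
  hQ : ∀ p ∈ Rg T0, Q p = ∑ i, (Ut i p ^ 2 + (1 - p.2 ^ 2) * Us i p ^ 2)
  eqn : ∀ i, ∀ p ∈ Rg T0, Utt i p + (1 - p.2 ^ 2) * Uss i p - ((n : ℝ) - 1) * p.2 * Us i p
    + ((n : ℝ) - 2) / 2 * ((Qt p * Ut i p + (1 - p.2 ^ 2) * Qs p * Us i p) / Q p)
      = - ∑ j, (A i j p * Ut j p + (1 - p.2 ^ 2) * (B i j p * Us j p))
  aA : ∀ i j p, A j i p = - A i j p
  aB : ∀ i j p, B j i p = - B i j p
  bU : ∀ i, ∀ p ∈ Rg T0, |U i p| ≤ C * Real.sqrt p.1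
  bUt : ∀ i, ∀ p ∈ Rg T0, |Ut i p| ≤ C * s p.1 ^ 2
  bUs : ∀ i, ∀ p ∈ Rg T0, |Us i p| ≤ C * s p.1 ^ 2
  bA : ∀ i j, ∀ p ∈ Rg T0, |A i j p| ≤ C * s p.1
  bB : ∀ i j, ∀ p ∈ Rg T0, |B i j p| ≤ C * s p.1
  lim : ∃ i, ∀ c : ℝ, ∃ ε > 0, ∀ T' : ℝ, ∃ t ≥ T', ∀ σ : ℝ, σ ^ 2 ≤ 1 → ε ≤ |U i (t, σ) - c|

variable {n m : ℕ}

theorem tau_ge {T : ℝ} {x : E n} (hx : x ∈ PB n) : T ≤ tau T x := by
  have := Real.log_nonpos (norm_nonneg x) (norm_lt_of_PB hx).le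
  unfold tau; linarith

theorem Pt_mem {T0 T : ℝ} (hT : T0 ≤ T) (o : Fin n) {x : E n} (hx : x ∈ PB n) :
    Pt T o x ∈ Rg T0 :=
  ⟨hT.trans (tau_ge hx), sg_sq_le o hx.2⟩

theorem contDiffAt_Pt (T : ℝ) (o : Fin n) {x : E n} (hx : x ∈ PB n) :
    ContDiffAt ℝ ∞ (Pt T o : E n → ℝ × ℝ) x := by
  unfold Pt tau sg
  exact (contDiffAt_const.sub ((contDiffAt_norm ℝ hx.2).log (norm_pos_of_PB hx).ne')).prodMk
    ((contDiffAt_invnorm hx).mul (contDiffAt_coord o x))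

theorem contDiffAt_dT {x : E n} (hx : x ∈ PB n) (α : Fin n) :
    ContDiffAt ℝ ∞ (fun y : E n => dT y α) x := by
  unfold dT
  exact (((contDiffAt_invnorm hx).pow 2).mul (contDiffAt_coord α x)).neg

theorem contDiffAt_dS (o : Fin n) {x : E n} (hx : x ∈ PB n) (α : Fin n) :
    ContDiffAt ℝ ∞ (fun y : E n => dS o y α) x := by
  unfold dS
  exact ((contDiffAt_invnorm hx).mul contDiffAt_const).sub
    (((contDiffAt_invnorm hx).pow 3).mul ((contDiffAt_coord o x).mul (contDiffAt_coord α x)))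

theorem abs_dT_le {x : E n} (hx : x ∈ PB n) (α : Fin n) : |dT x α| ≤ ‖x‖⁻¹ := by
  have h1 := abs_coord_mul_le hx α
  have hr := inv_pos.2 (norm_pos_of_PB hx)
  rw [dT, abs_neg, abs_mul, abs_of_pos (by positivity : 0 < ‖x‖⁻¹ ^ 2)]
  calc ‖x‖⁻¹ ^ 2 * |x α| = ‖x‖⁻¹ * (‖x‖⁻¹ * |x α|) := by ring
    _ ≤ ‖x‖⁻¹ * 1 := by gcongr
    _ = ‖x‖⁻¹ := mul_one _

theorem abs_dS_le (o : Fin n) {x : E n} (hx : x ∈ PB n) (α : Fin n) :
    |dS o x α| ≤ 2 * ‖x‖⁻¹ := by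
  have h1 := abs_coord_mul_le hx α
  have h2 := abs_coord_mul_le hx o
  have hr := inv_pos.2 (norm_pos_of_PB hx)
  have h3 : |‖x‖⁻¹ * e o α| ≤ ‖x‖⁻¹ := by
    rw [abs_mul, abs_of_pos hr]
    calc ‖x‖⁻¹ * |(e o α : ℝ)| ≤ ‖x‖⁻¹ * 1 := by gcongr; exact abs_e_le o α
      _ = ‖x‖⁻¹ := mul_one _
  have h4 : |‖x‖⁻¹ ^ 3 * (x o * x α)| ≤ ‖x‖⁻¹ := by
    rw [abs_mul, abs_mul, abs_of_pos (by positivity : 0 < ‖x‖⁻¹ ^ 3)]
    calc ‖x‖⁻¹ ^ 3 * (|x o| * |x α|) = ‖x‖⁻¹ * ((‖x‖⁻¹ * |x o|) * (‖x‖⁻¹ * |x α|)) := by ring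
      _ ≤ ‖x‖⁻¹ * (1 * 1) := by gcongr
      _ = ‖x‖⁻¹ := by ring
  rw [dS]
  refine (abs_sub _ _).trans ?_
  linarith

/-- `|x|⁻¹ τ^{-1/2}` -/
noncomputable def wT (T : ℝ) (x : E n) : ℝ := ‖x‖⁻¹ * s (tau T x)

theorem s_anti {a b : ℝ} (ha : 0 < a) (h : a ≤ b) : s b ≤ s a := by
  unfold s
  exact inv_anti₀ (Real.sqrt_pos.2 ha) (Real.sqrt_le_sqrt h)

theorem wT_le {T T' : ℝ} (hT : 1 ≤ T) (h : T ≤ T') {x : E n} (hx : x ∈ PB n) :
    wT T' x ≤ wT T x := by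
  have hr := inv_pos.2 (norm_pos_of_PB hx)
  unfold wT
  refine mul_le_mul_of_nonneg_left (s_anti ?_ ?_) hr.le
  · have := tau_ge (T := T) hx; linarith
  · unfold tau; linarith

theorem wT_one (x : E n) : wT 1 x = w x := rfl

theorem wT_pos {T : ℝ} (hT : 1 ≤ T) {x : E n} (hx : x ∈ PB n) : 0 < wT T x := by
  have hr := inv_pos.2 (norm_pos_of_PB hx)
  have : 0 < tau T x := by have := tau_ge (T := T) hx; linarith
  have := s_pos this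
  unfold wT
  positivity

theorem aesm (hn : 3 ≤ n) {f : E n → ℝ} (hf : ContinuousOn f (PB n)) :
    AEStronglyMeasurable f (volume.restrict (ball (0 : E n) 1)) := by
  have h1 : AEStronglyMeasurable f (volume.restrict (PB n)) :=
    hf.aestronglyMeasurable isOpen_PB.measurableSet
  have h2 : (volume.restrict (PB n) : Measure (E n)) = volume.restrict (ball (0 : E n) 1) := by
    apply Measure.restrict_congr_set
    have : Nontrivial (E n) := by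
      have : Nonempty (Fin n) := ⟨⟨0, by omega⟩⟩
      infer_instance
    have h0 : volume ({(0 : E n)} : Set (E n)) = 0 := measure_singleton 0
    filter_upwards [compl_mem_ae_iff.2 h0] with x hx
    apply propext
    constructor
    · exact fun h => h.1
    · exact fun h => ⟨h, hx⟩
  rw [← h2]
  exact h1

theorem contAt_on {f : E n → ℝ} (hf : ∀ x ∈ PB n, ContDiffAt ℝ ∞ f x) : ContinuousOn f (PB n) :=
  fun x hx => (hf x hx).continuousAt.continuousWithinAt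

namespace Fr

variable {T0 C : ℝ} (S : Fr n m T0 C) (T : ℝ) (o : Fin n)

/-- the map -/
noncomputable def u (x : E n) (i : Fin m) : ℝ := S.U i (Pt T o x)

/-- the gradient -/
noncomputable def Du (x : E n) (i : Fin m) (α : Fin n) : ℝ :=
  S.Ut i (Pt T o x) * dT x α + S.Us i (Pt T o x) * dS o x α

/-- the potential -/
noncomputable def Om (i j : Fin m) (α : Fin n) (x : E n) : ℝ :=
  S.A i j (Pt T o x) * dT x α + S.B i j (Pt T o x) * dS o x α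

theorem fderiv_u (hT : T0 ≤ T) {x : E n} (hx : x ∈ PB n) (i : Fin m) (α : Fin n) :
    fderiv ℝ (fun y => S.u T o y i) x (e α) = S.Du T o x i α :=
  fderiv_Pt T o hx.2 (S.dU i _ (Pt_mem hT o hx)) α

theorem cd_u (hT : T0 ≤ T) {x : E n} (hx : x ∈ PB n) (i : Fin m) :
    ContDiffAt ℝ ∞ (fun y => S.u T o y i) x :=
  (S.cU i _ (Pt_mem hT o hx)).comp x (contDiffAt_Pt T o hx)

theorem cd_Du (hT : T0 ≤ T) {x : E n} (hx : x ∈ PB n) (i : Fin m) (α : Fin n) :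
    ContDiffAt ℝ ∞ (fun y => S.Du T o y i α) x := by
  unfold Du
  exact (((S.cUt i _ (Pt_mem hT o hx)).comp x (contDiffAt_Pt T o hx)).mul (contDiffAt_dT hx α)).add
    (((S.cUs i _ (Pt_mem hT o hx)).comp x (contDiffAt_Pt T o hx)).mul (contDiffAt_dS o hx α))

theorem cd_Om (hT : T0 ≤ T) {x : E n} (hx : x ∈ PB n) (i j : Fin m) (α : Fin n) :
    ContDiffAt ℝ ∞ (fun y => S.Om T o i j α y) x := by
  unfold Om
  exact (((S.cA i j _ (Pt_mem hT o hx)).comp x (contDiffAt_Pt T o hx)).mul (contDiffAt_dT hx α)).add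
    (((S.cB i j _ (Pt_mem hT o hx)).comp x (contDiffAt_Pt T o hx)).mul (contDiffAt_dS o hx α))

theorem Om_anti (i j : Fin m) (α : Fin n) (x : E n) :
    S.Om T o j i α x = - S.Om T o i j α x := by
  unfold Om
  rw [S.aA i j, S.aB i j]; ring

theorem sum_pair {x : E n} (hx : x ∈ PB n) (a b c d : ℝ) :
    ∑ α, (a * dT x α + b * dS o x α) * (c * dT x α + d * dS o x α)
      = (‖x‖⁻¹) ^ 2 * (a * c + (1 - sg o x ^ 2) * (b * d)) := by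
  have h1 : ∀ α, (a * dT x α + b * dS o x α) * (c * dT x α + d * dS o x α)
      = (a * c) * (dT x α * dT x α) + (a * d + b * c) * (dT x α * dS o x α)
        + (b * d) * (dS o x α * dS o x α) := fun α => by ring
  simp only [h1, Finset.sum_add_distrib, ← Finset.mul_sum, sum_dT_dT hx.2, sum_dT_dS o hx.2,
    sum_dS_dS o hx.2]
  ring

/-- gradient norm -/
noncomputable def gN (x : E n) : ℝ := Real.sqrt (∑ i, ∑ α, S.Du T o x i α ^ 2)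

theorem gN_eq (hT : T0 ≤ T) {x : E n} (hx : x ∈ PB n) :
    S.gN T o x = ‖x‖⁻¹ * Real.sqrt (S.Q (Pt T o x)) := by
  have h1 : ∀ i, ∑ α, S.Du T o x i α ^ 2 = (‖x‖⁻¹) ^ 2 * (S.Ut i (Pt T o x) ^ 2
      + (1 - (Pt T o x).2 ^ 2) * S.Us i (Pt T o x) ^ 2) := fun i => by
    have := sum_pair o hx (S.Ut i (Pt T o x)) (S.Us i (Pt T o x)) (S.Ut i (Pt T o x))
      (S.Us i (Pt T o x))
    simp only [Du, sq] at this ⊢
    rw [this]
    rfl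
  unfold gN
  simp only [h1, ← Finset.mul_sum]
  rw [← S.hQ _ (Pt_mem hT o hx), Real.sqrt_mul (by positivity),
    Real.sqrt_sq (inv_nonneg.2 (norm_nonneg x))]

/-- the flux -/
noncomputable def Fl (i : Fin m) (α : Fin n) (x : E n) : ℝ :=
  S.gN T o x ^ (n - 2) * S.Du T o x i α

/-- the smooth form of the flux -/
noncomputable def Fc (i : Fin m) (α : Fin n) (x : E n) : ℝ :=
  flT (n - 2) (fun q => Real.sqrt (S.Q q) ^ (n - 2) * S.Ut i q) T o α x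
    + flS (n - 2) (fun q => Real.sqrt (S.Q q) ^ (n - 2) * S.Us i q) T o α x

theorem Fl_eq (hT : T0 ≤ T) {x : E n} (hx : x ∈ PB n) (i : Fin m) (α : Fin n) :
    S.Fl T o i α x = S.Fc T o i α x := by
  unfold Fl Fc flT flS Du
  rw [S.gN_eq T o hT hx, mul_pow]
  ring

theorem cd_Fc (hT : T0 ≤ T) {x : E n} (hx : x ∈ PB n) (i : Fin m) (α : Fin n) :
    ContDiffAt ℝ ∞ (S.Fc T o i α) x := by
  have hP := Pt_mem hT o hx
  have hq : ContDiffAt ℝ ∞ (fun y : E n => Real.sqrt (S.Q (Pt T o y)) ^ (n - 2)) x := by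
    have h1 : ContDiffAt ℝ ∞ (fun y : E n => S.Q (Pt T o y)) x :=
      (S.cQ _ hP).comp x (contDiffAt_Pt T o hx)
    exact (h1.sqrt (S.Qpos _ hP).ne').pow _
  have h2 : ContDiffAt ℝ ∞ (fun y : E n => S.Ut i (Pt T o y)) x :=
    (S.cUt i _ hP).comp x (contDiffAt_Pt T o hx)
  have h3 : ContDiffAt ℝ ∞ (fun y : E n => S.Us i (Pt T o y)) x :=
    (S.cUs i _ hP).comp x (contDiffAt_Pt T o hx)
  unfold Fc flT flS
  exact (((contDiffAt_invnorm hx).pow _).mul ((hq.mul h2).mul (contDiffAt_dT hx α))).add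
    (((contDiffAt_invnorm hx).pow _).mul ((hq.mul h3).mul (contDiffAt_dS o hx α)))

/-- the divergence of the flux -/
noncomputable def ff (i : Fin m) (x : E n) : ℝ :=
  - ∑ j, ∑ α, S.Om T o i j α x * S.Fl T o j α x

theorem sum_Om_Fl (hT : T0 ≤ T) (hn : 3 ≤ n) {x : E n} (hx : x ∈ PB n) (i : Fin m) :
    ∑ j, ∑ α, S.Om T o i j α x * S.Fl T o j α x
      = (‖x‖⁻¹) ^ n * Real.sqrt (S.Q (Pt T o x)) ^ (n - 2)
        * ∑ j, (S.A i j (Pt T o x) * S.Ut j (Pt T o x)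
          + (1 - (Pt T o x).2 ^ 2) * (S.B i j (Pt T o x) * S.Us j (Pt T o x))) := by
  rw [Finset.mul_sum]
  refine Finset.sum_congr rfl fun j _ => ?_
  have h1 : ∀ α, S.Om T o i j α x * S.Fl T o j α x = S.gN T o x ^ (n - 2)
      * ((S.A i j (Pt T o x) * dT x α + S.B i j (Pt T o x) * dS o x α)
        * (S.Ut j (Pt T o x) * dT x α + S.Us j (Pt T o x) * dS o x α)) := fun α => by
    unfold Om Fl Du; ring
  simp only [h1, ← Finset.mul_sum]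
  rw [sum_pair o hx, S.gN_eq T o hT hx, mul_pow]
  have e1 : (‖x‖⁻¹) ^ n = (‖x‖⁻¹) ^ (n - 2) * (‖x‖⁻¹) ^ 2 := by
    rw [← pow_add]; congr 1; omega
  rw [e1]
  have e2 : (Pt T o x).2 = sg o x := rfl
  rw [e2]
  ring

theorem div_Fc (hT : T0 ≤ T) (hn : 3 ≤ n) {x : E n} (hx : x ∈ PB n) (i : Fin m) :
    ∑ α, fderiv ℝ (S.Fc T o i α) x (e α) = S.ff T o i x := by
  have hP := Pt_mem hT o hx
  have hN : n = (n - 2) + 2 := by omega
  have hW := D2.sqrtPow (n - 2) (S.Qpos _ hP) (S.dQ _ hP)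
  obtain ⟨d1, s1⟩ := div_flT hN T o hx.2 (hW.mul (S.dUt i _ hP))
  obtain ⟨d2, s2⟩ := div_flS hN T o hx.2 (hW.mul (S.dUs i _ hP))
  have h1 : ∀ α, fderiv ℝ (S.Fc T o i α) x (e α)
      = fderiv ℝ (flT (n - 2) (fun q => Real.sqrt (S.Q q) ^ (n - 2) * S.Ut i q) T o α) x (e α)
        + fderiv ℝ (flS (n - 2) (fun q => Real.sqrt (S.Q q) ^ (n - 2) * S.Us i q) T o α) x (e α) := by
    intro α
    have : S.Fc T o i α = fun y =>
        flT (n - 2) (fun q => Real.sqrt (S.Q q) ^ (n - 2) * S.Ut i q) T o α y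
          + flS (n - 2) (fun q => Real.sqrt (S.Q q) ^ (n - 2) * S.Us i q) T o α y := rfl
    rw [this, fderiv_fun_add (d1 α) (d2 α)]
    rfl
  simp only [h1, Finset.sum_add_distrib]
  rw [s1, s2, ff, S.sum_Om_Fl T o hT hn hx i]
  have he := S.eqn i _ hP
  have e2 : (Pt T o x).2 = sg o x := rfl
  have e3 : ((n - 2 : ℕ) : ℝ) = (n : ℝ) - 2 := by
    rw [Nat.cast_sub (by omega)]; simp
  rw [e2] at he ⊢
  rw [e3]
  linear_combination ((‖x‖⁻¹) ^ n * Real.sqrt (S.Q (Pt T o x)) ^ (n - 2)) * he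

theorem abs_Du_le (hT : T0 ≤ T) {x : E n} (hx : x ∈ PB n) (i : Fin m) (α : Fin n) :
    |S.Du T o x i α| ≤ 3 * C * (‖x‖⁻¹ * s (tau T x) ^ 2) := by
  have hP := Pt_mem hT o hx
  have h1 := S.bUt i _ hP
  have h2 := S.bUs i _ hP
  have h3 := abs_dT_le hx α
  have h4 := abs_dS_le o hx α
  have hr := inv_pos.2 (norm_pos_of_PB hx)
  have e1 : (Pt T o x).1 = tau T x := rfl
  rw [e1] at h1 h2
  unfold Du
  refine (abs_add_le _ _).trans ?_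
  rw [abs_mul, abs_mul]
  have hs : 0 ≤ C * s (tau T x) ^ 2 := mul_nonneg S.C0 (by positivity)
  calc |S.Ut i (Pt T o x)| * |dT x α| + |S.Us i (Pt T o x)| * |dS o x α|
      ≤ (C * s (tau T x) ^ 2) * ‖x‖⁻¹ + (C * s (tau T x) ^ 2) * (2 * ‖x‖⁻¹) := by gcongr
    _ = 3 * C * (‖x‖⁻¹ * s (tau T x) ^ 2) := by ring

theorem abs_Om_le (hT : T0 ≤ T) {x : E n} (hx : x ∈ PB n) (i j : Fin m) (α : Fin n) :
    |S.Om T o i j α x| ≤ 3 * C * wT T x := by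
  have hP := Pt_mem hT o hx
  have h1 := S.bA i j _ hP
  have h2 := S.bB i j _ hP
  have h3 := abs_dT_le hx α
  have h4 := abs_dS_le o hx α
  have hr := inv_pos.2 (norm_pos_of_PB hx)
  have e1 : (Pt T o x).1 = tau T x := rfl
  rw [e1] at h1 h2
  have ht : 0 < tau T x := by have := tau_ge (T := T) hx; have := S.T1; linarith
  have hs : 0 ≤ C * s (tau T x) := mul_nonneg S.C0 (s_pos ht).le
  unfold Om wT
  refine (abs_add_le _ _).trans ?_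
  rw [abs_mul, abs_mul]
  calc |S.A i j (Pt T o x)| * |dT x α| + |S.B i j (Pt T o x)| * |dS o x α|
      ≤ (C * s (tau T x)) * ‖x‖⁻¹ + (C * s (tau T x)) * (2 * ‖x‖⁻¹) := by gcongr
    _ = 3 * C * (‖x‖⁻¹ * s (tau T x)) := by ring

theorem abs_Du_le' (hT : T0 ≤ T) {x : E n} (hx : x ∈ PB n) (i : Fin m) (α : Fin n) :
    |S.Du T o x i α| ≤ 3 * C * wT T x := by
  refine (S.abs_Du_le T o hT hx i α).trans ?_
  have ht : 1 ≤ tau T x := by have := tau_ge (T := T) hx; have := S.T1; linarith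
  have hs := s_pos (lt_of_lt_of_le one_pos ht)
  have hs1 := s_le_one ht
  have hr := inv_pos.2 (norm_pos_of_PB hx)
  have hC := S.C0
  unfold wT
  have : s (tau T x) ^ 2 ≤ s (tau T x) := by nlinarith
  gcongr

theorem gN_le (hT : T0 ≤ T) {x : E n} (hx : x ∈ PB n) :
    S.gN T o x ≤ 3 * C * (m * n + 1) * (‖x‖⁻¹ * s (tau T x) ^ 2) := by
  have ht : 1 ≤ tau T x := by have := tau_ge (T := T) hx; have := S.T1; linarith
  have hs := s_pos (lt_of_lt_of_le one_pos ht)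
  have hr := inv_pos.2 (norm_pos_of_PB hx)
  have hC := S.C0
  set y := 3 * C * (‖x‖⁻¹ * s (tau T x) ^ 2) with hy
  have hy0 : 0 ≤ y := by positivity
  have h1 : ∑ i, ∑ α, S.Du T o x i α ^ 2 ≤ ∑ _i : Fin m, ∑ _α : Fin n, y ^ 2 := by
    refine Finset.sum_le_sum fun i _ => Finset.sum_le_sum fun α _ => ?_
    rw [← sq_abs]
    have := S.abs_Du_le T o hT hx i α
    gcongr
  have h2 : ∑ _i : Fin m, ∑ _α : Fin n, y ^ 2 = m * n * y ^ 2 := by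
    simp; ring
  rw [h2] at h1
  unfold gN
  refine (Real.sqrt_le_sqrt h1).trans ?_
  apply Real.sqrt_le_iff.2
  refine ⟨by positivity, ?_⟩
  have e1 : 3 * C * (m * n + 1) * (‖x‖⁻¹ * s (tau T x) ^ 2) = (m * n + 1) * y := by
    rw [hy]; ring
  have e2 : ((m * n + 1) * y) ^ 2 = (m * n + 1) ^ 2 * y ^ 2 := by ring
  rw [e1, e2]
  apply mul_le_mul_of_nonneg_right _ (sq_nonneg _)
  have : (0 : ℝ) ≤ m * n := by positivity
  nlinarith

/-- the constant of the flux bounds -/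
noncomputable def Kf (n m : ℕ) (C : ℝ) : ℝ := (3 * C * (m * n + 1)) ^ (n - 2) * (3 * C)

theorem abs_Fl_le (hT : T0 ≤ T) {x : E n} (hx : x ∈ PB n) (hn : 3 ≤ n) (i : Fin m) (α : Fin n) :
    |S.Fl T o i α x| ≤ Kf n m C * (‖x‖⁻¹ * s (tau T x) ^ 2) ^ (n - 1) := by
  have hC := S.C0
  have hr := inv_pos.2 (norm_pos_of_PB hx)
  have h1 := S.abs_Du_le T o hT hx i α
  have h2 := S.gN_le T o hT hx
  have h3 : 0 ≤ S.gN T o x := Real.sqrt_nonneg _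
  rw [Fl, abs_mul, abs_of_nonneg (by positivity : 0 ≤ S.gN T o x ^ (n - 2)), Kf]
  have e1 : n - 1 = (n - 2) + 1 := by omega
  calc S.gN T o x ^ (n - 2) * |S.Du T o x i α|
      ≤ (3 * C * (m * n + 1) * (‖x‖⁻¹ * s (tau T x) ^ 2)) ^ (n - 2)
        * (3 * C * (‖x‖⁻¹ * s (tau T x) ^ 2)) := by gcongr
    _ = (3 * C * (m * n + 1)) ^ (n - 2) * (3 * C) * (‖x‖⁻¹ * s (tau T x) ^ 2) ^ (n - 1) := by
        rw [e1]
        generalize ‖x‖⁻¹ * s (tau T x) ^ 2 = y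
        rw [pow_succ, mul_pow (3 * C * (m * n + 1)) y (n - 2)]
        ring

theorem w_pow_bound' (hT : 1 ≤ T) (hn : 3 ≤ n) {x : E n} (hx : x ∈ PB n) :
    ‖x‖⁻¹ * (‖x‖⁻¹ * s (tau T x) ^ 2) ^ (n - 1) ≤ w x ^ n := by
  have ht : 1 ≤ tau T x := by have := tau_ge (T := T) hx; linarith
  have hs := s_pos (lt_of_lt_of_le one_pos ht)
  have hr := inv_pos.2 (norm_pos_of_PB hx)
  have h1 := wT_le le_rfl hT hx
  rw [wT_one] at h1
  have h0 := wT_pos hT hx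
  obtain ⟨k, rfl⟩ : ∃ k, n = k + 3 := ⟨n - 3, by omega⟩
  have e2 : k + 3 - 1 = k + 2 := by omega
  rw [e2]
  calc ‖x‖⁻¹ * (‖x‖⁻¹ * s (tau T x) ^ 2) ^ (k + 2)
      = s (tau T x) ^ (k + 1) * wT T x ^ (k + 3) := by unfold wT; ring
    _ ≤ 1 * wT T x ^ (k + 3) := by
        gcongr
        exact pow_le_one₀ hs.le (s_le_one ht)
    _ ≤ w x ^ (k + 3) := by rw [one_mul]; gcongr

theorem abs_inv_Fl_le (hT : T0 ≤ T) {x : E n} (hx : x ∈ PB n) (hn : 3 ≤ n) (i : Fin m) (α : Fin n) :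
    |‖x‖⁻¹ * S.Fl T o i α x| ≤ Kf n m C * w x ^ n := by
  have hr := inv_pos.2 (norm_pos_of_PB hx)
  have hC := S.C0
  have hK : 0 ≤ Kf n m C := by unfold Kf; positivity
  rw [abs_mul, abs_of_pos hr]
  have h1 := S.abs_Fl_le T o hT hx hn i α
  have h2 := w_pow_bound' T (S.T1.trans hT) hn hx
  calc ‖x‖⁻¹ * |S.Fl T o i α x|
      ≤ ‖x‖⁻¹ * (Kf n m C * (‖x‖⁻¹ * s (tau T x) ^ 2) ^ (n - 1)) := by gcongr
    _ = Kf n m C * (‖x‖⁻¹ * (‖x‖⁻¹ * s (tau T x) ^ 2) ^ (n - 1)) := by ring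
    _ ≤ Kf n m C * w x ^ n := by gcongr

theorem abs_Om_Fl_le (hT : T0 ≤ T) {x : E n} (hx : x ∈ PB n) (hn : 3 ≤ n) (i j : Fin m)
    (α : Fin n) :
    |S.Om T o i j α x * S.Fl T o j α x| ≤ 3 * C * Kf n m C * w x ^ n := by
  have hr := inv_pos.2 (norm_pos_of_PB hx)
  have hC := S.C0
  have hK : 0 ≤ Kf n m C := by unfold Kf; positivity
  have ht : 1 ≤ tau T x := by have := tau_ge (T := T) hx; have := S.T1; linarith
  have hs := s_pos (lt_of_lt_of_le one_pos ht)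
  have hs1 := s_le_one ht
  have h1 := S.abs_inv_Fl_le T o hT hx hn j α
  have h2 := S.abs_Om_le T o hT hx i j α
  have hw := w_pos hx
  rw [abs_mul, abs_of_pos hr] at h1
  rw [abs_mul]
  calc |S.Om T o i j α x| * |S.Fl T o j α x| ≤ 3 * C * wT T x * |S.Fl T o j α x| := by gcongr
    _ = 3 * C * s (tau T x) * (‖x‖⁻¹ * |S.Fl T o j α x|) := by rw [wT]; ring
    _ ≤ 3 * C * 1 * (Kf n m C * w x ^ n) := by gcongr
    _ = 3 * C * Kf n m C * w x ^ n := by ring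

theorem abs_ff_le (hT : T0 ≤ T) {x : E n} (hx : x ∈ PB n) (hn : 3 ≤ n) (i : Fin m) :
    |S.ff T o i x| ≤ (m * (n * (3 * C * Kf n m C))) * w x ^ n := by
  rw [ff, abs_neg]
  calc |∑ j, ∑ α, S.Om T o i j α x * S.Fl T o j α x|
      ≤ ∑ j, ∑ α, |S.Om T o i j α x * S.Fl T o j α x| :=
        (Finset.abs_sum_le_sum_abs _ _).trans
          (Finset.sum_le_sum fun j _ => Finset.abs_sum_le_sum_abs _ _)
    _ ≤ ∑ _j : Fin m, ∑ _α : Fin n, 3 * C * Kf n m C * w x ^ n :=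
        Finset.sum_le_sum fun j _ => Finset.sum_le_sum fun α _ => S.abs_Om_Fl_le T o hT hx hn i j α
    _ = (m * (n * (3 * C * Kf n m C))) * w x ^ n := by
        simp; ring

end Fr

end Pool.Agent.Y303.NL
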