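import Pool.Agent.Y303.NL.Frame

/-! Weak formulation, discontinuity and smallness. -/

open MeasureTheory Set Filter Topology Metric
open scoped RealInnerProductSpace ContDiff

namespace Pool.Agent.Y303.NL
open Pool.Agent.Helper566 Pool.Agent.Helper566.Profile Pool.Agent.Helper566.Map

variable {n m : ℕ}

theorem memLp_of (hn : 3 ≤ n) {f : E n → ℝ} (hf : ContinuousOn f (PB n)) {K : ℝ}
    (h : ∀ x ∈ PB n, |f x| ≤ K * w x) : MemLp f n (volume.restrict (ball 0 1)) := by
  refine MemLp.of_le_mul (memLp_w hn) (aesm hn hf) (c := K) ?_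
  filter_upwards [ae_PB hn] with x hx
  rw [Real.norm_of_nonneg (w_pos hx).le]
  exact h x hx

theorem sqrt_tau_le {T : ℝ} (hT : 1 ≤ T) {x : E n} (hx : x ∈ PB n) :
    Real.sqrt (tau T x) ≤ T * Real.sqrt (tt x) := by
  have h1 := one_le_tt hx
  have h2 : tau T x ≤ T ^ 2 * tt x := by
    have h3 : tau T x = T - 1 + tt x := by unfold tau tt; ring
    have h4 : (0:ℝ) ≤ (T ^ 2 - 1) * (tt x - 1) := mul_nonneg (by nlinarith) (by linarith)
    nlinarith
  calc Real.sqrt (tau T x) ≤ Real.sqrt (T ^ 2 * tt x) := Real.sqrt_le_sqrt h2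
    _ = T * Real.sqrt (tt x) := by
        rw [Real.sqrt_mul (by positivity), Real.sqrt_sq (by linarith)]

theorem sqrt_tt_le_inv {x : E n} (hx : x ∈ PB n) : Real.sqrt (tt x) ≤ ‖x‖⁻¹ := by
  have h1 := one_le_tt hx
  have h2 := tt_mul_norm_le hx
  have h3 : Real.sqrt (tt x) ≤ tt x := Real.sqrt_le_iff.2 ⟨by linarith, by nlinarith⟩
  linarith

namespace Fr

variable {T0 C : ℝ} (S : Fr n m T0 C) (T : ℝ) (o : Fin n)

theorem abs_u_le (hT : T0 ≤ T) {x : E n} (hx : x ∈ PB n) (i : Fin m) :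
    |S.u T o x i| ≤ C * T * Real.sqrt (tt x) := by
  have h1 := S.bU i _ (Pt_mem hT o hx)
  have h2 := sqrt_tau_le (S.T1.trans hT) hx
  have hC := S.C0
  calc |S.u T o x i| ≤ C * Real.sqrt (tau T x) := h1
    _ ≤ C * (T * Real.sqrt (tt x)) := by gcongr
    _ = C * T * Real.sqrt (tt x) := by ring

theorem memLp_u (hT : T0 ≤ T) (hn : 3 ≤ n) (i : Fin m) :
    MemLp (fun x : E n => S.u T o x i) n (volume.restrict (ball 0 1)) := by
  refine memLp_of hn (contAt_on fun x hx => S.cd_u T o hT hx i) (K := C * T) fun x hx => ?_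
  have h1 := S.abs_u_le T o hT hx i
  have h2 := sqrt_le_w hx
  have hC := S.C0
  have hT0 : 0 ≤ T := by have := S.T1; linarith
  calc |S.u T o x i| ≤ C * T * Real.sqrt (tt x) := h1
    _ ≤ C * T * w x := by gcongr

theorem memLp_Du (hT : T0 ≤ T) (hn : 3 ≤ n) (i : Fin m) (α : Fin n) :
    MemLp (fun x : E n => S.Du T o x i α) n (volume.restrict (ball 0 1)) := by
  refine memLp_of hn (contAt_on fun x hx => S.cd_Du T o hT hx i α) (K := 3 * C) fun x hx => ?_
  refine (S.abs_Du_le' T o hT hx i α).trans ?_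
  have := wT_le le_rfl (S.T1.trans hT) hx
  rw [wT_one] at this
  have hC := S.C0
  gcongr

theorem memLp_Om (hT : T0 ≤ T) (hn : 3 ≤ n) (i j : Fin m) (α : Fin n) :
    MemLp (fun x : E n => S.Om T o i j α x) n (volume.restrict (ball 0 1)) := by
  refine memLp_of hn (contAt_on fun x hx => S.cd_Om T o hT hx i j α) (K := 3 * C) fun x hx => ?_
  refine (S.abs_Om_le T o hT hx i j α).trans ?_
  have := wT_le le_rfl (S.T1.trans hT) hx
  rw [wT_one] at this
  have hC := S.C0
  gcongr

theorem weak_gradient (hT : T0 ≤ T) (hn : 3 ≤ n) (i : Fin m) (α : Fin n) {φ : E n → ℝ}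
    (hφ : ContDiff ℝ ∞ φ) (hc : HasCompactSupport φ) (hs : tsupport φ ⊆ ball 0 1) :
    ∫ x in ball 0 1, S.u T o x i * fderiv ℝ φ x (e α)
      = - ∫ x in ball 0 1, S.Du T o x i α * φ x := by
  have : Nontrivial (E n) := by
    have : Nonempty (Fin n) := ⟨⟨0, by omega⟩⟩
    infer_instance
  have hC := S.C0
  have hT0 : 0 ≤ T := by have := S.T1; linarith
  have h := Removable.removable (ι := Unit) (fun _ => (e α : E n)) (F := fun _ x => S.u T o x i)
    (f := fun x => S.Du T o x i α) ?_ ?_ ?_ ?_ hφ hc hs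
  · simpa using h
  · intro _ x hx
    exact ((S.cd_u T o hT hx i).of_le (by simp)).contDiffWithinAt
  · intro _
    refine integrableOn_of_bound hn (C := C * T)
      (aesm hn (contAt_on fun x hx => (contDiffAt_invnorm hx).mul (S.cd_u T o hT hx i)))
      (integrableOn_rinv_sq hn) ?_
    intro x hx
    have hr := inv_pos.2 (norm_pos_of_PB hx)
    have h1 := S.abs_u_le T o hT hx i
    have h2 := sqrt_tt_le_inv hx
    rw [abs_mul, abs_of_pos hr]
    calc ‖x‖⁻¹ * |S.u T o x i| ≤ ‖x‖⁻¹ * (C * T * ‖x‖⁻¹) := by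
          refine mul_le_mul_of_nonneg_left (h1.trans ?_) hr.le
          gcongr
      _ = C * T * ‖x‖⁻¹ ^ 2 := by ring
  · refine integrableOn_of_bound hn (C := 3 * C)
      (aesm hn (contAt_on fun x hx => S.cd_Du T o hT hx i α)) (integrableOn_w_pow hn) ?_
    intro x hx
    have h1 := S.abs_Du_le' T o hT hx i α
    have h2 := one_le_w hx
    have h3 : w x ≤ w x ^ n := le_self_pow₀ h2 (by omega)
    have h4 := wT_le le_rfl (S.T1.trans hT) hx
    rw [wT_one] at h4
    calc |S.Du T o x i α| ≤ 3 * C * wT T x := h1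
      _ ≤ 3 * C * w x ^ n := by
          have := h4.trans h3
          gcongr
  · intro x hx
    simp only [Finset.univ_unique, Finset.sum_const, Finset.card_singleton, one_smul]
    exact S.fderiv_u T o hT hx i α

theorem weak_equation (hT : T0 ≤ T) (hn : 3 ≤ n) (i : Fin m) {φ : E n → ℝ}
    (hφ : ContDiff ℝ ∞ φ) (hc : HasCompactSupport φ) (hs : tsupport φ ⊆ ball 0 1) :
    ∫ x in ball 0 1, ∑ α, S.gN T o x ^ (n - 2) * S.Du T o x i α * fderiv ℝ φ x (e α)
      = ∫ x in ball 0 1, (∑ j, ∑ α, S.Om T o i j α x * (S.gN T o x ^ (n - 2) * S.Du T o x j α))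
        * φ x := by
  have : Nontrivial (E n) := by
    have : Nonempty (Fin n) := ⟨⟨0, by omega⟩⟩
    infer_instance
  have hC := S.C0
  have hff : ∀ x ∈ PB n, S.ff T o i x = ∑ α, fderiv ℝ (S.Fc T o i α) x (e α) := fun x hx =>
    (S.div_Fc T o hT hn hx i).symm
  have h := Removable.removable (fun α => (e α : E n)) (F := fun α => (S.Fc T o i α : E n → ℝ))
    (f := fun x => S.ff T o i x) ?_ ?_ ?_ ?_ hφ hc hs
  · have h1 : ∫ x in ball 0 1, ∑ α, S.gN T o x ^ (n - 2) * S.Du T o x i α * fderiv ℝ φ x (e α)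
        = ∫ x in ball 0 1, ∑ α, S.Fc T o i α x * fderiv ℝ φ x (e α) := by
      apply integral_congr_ae
      filter_upwards [ae_PB hn] with x hx
      refine Finset.sum_congr rfl fun α _ => ?_
      rw [← S.Fl_eq T o hT hx, Fl]
    rw [h1, h, ← integral_neg]
    congr 1
    funext x
    simp only [ff, Fl]
    ring
  · intro α x hx
    exact ((S.cd_Fc T o hT hx i α).of_le (by simp)).contDiffWithinAt
  · intro α
    refine integrableOn_of_bound hn (C := Kf n m C)
      (aesm hn (contAt_on fun x hx => (contDiffAt_invnorm hx).mul (S.cd_Fc T o hT hx i α)))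
      (integrableOn_w_pow hn) ?_
    intro x hx
    rw [← S.Fl_eq T o hT hx]
    exact S.abs_inv_Fl_le T o hT hx hn i α
  · refine integrableOn_of_bound hn (C := m * (n * (3 * C * Kf n m C))) ?_
      (integrableOn_w_pow hn) ?_
    · refine (aesm hn (f := fun x => ∑ α, fderiv ℝ (S.Fc T o i α) x (e α)) ?_).congr ?_
      · apply continuousOn_finsetSum
        intro α _
        have h1 : ContDiffOn ℝ 1 (S.Fc T o i α) (PB n) := fun x hx =>
          ((S.cd_Fc T o hT hx i α).of_le (by simp)).contDiffWithinAt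
        exact (h1.continuousOn_fderiv_of_isOpen isOpen_PB le_rfl).clm_apply continuousOn_const
      · filter_upwards [ae_PB hn] with x hx
        exact (hff x hx).symm
    · intro x hx
      exact S.abs_ff_le T o hT hx hn i
  · intro x hx
    exact S.div_Fc T o hT hn hx i

theorem not_continuous (hT : T0 ≤ T) (hn : 3 ≤ n) :
    ¬ ∃ v : E n → Fin m → ℝ, ContinuousOn v (ball 0 1) ∧
      ∀ᵐ x ∂(volume.restrict (ball (0 : E n) 1)), S.u T o x = v x := by
  have : Nontrivial (E n) := by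
    have : Nonempty (Fin n) := ⟨⟨0, by omega⟩⟩
    infer_instance
  rintro ⟨v, hv, hae⟩
  obtain ⟨i, hi⟩ := S.lim
  have hv0 : ContinuousAt (fun x => v x i) 0 :=
    (continuous_apply i).continuousAt.comp (hv.continuousAt (ball_mem_nhds 0 one_pos))
  obtain ⟨ε, hε, hL⟩ := hi (v 0 i)
  obtain ⟨δ, hδ, hδb⟩ := Metric.continuousAt_iff.1 hv0 ε hε
  have heq : EqOn (fun x => S.u T o x i) (fun x => v x i) (PB n) := by
    apply Measure.eqOn_open_of_ae_eq (μ := (volume : Measure (E n))) _ isOpen_PB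
    · exact contAt_on fun x hx => S.cd_u T o hT hx i
    · exact ((continuous_apply i).comp_continuousOn hv).mono fun x hx => hx.1
    · have h1 : ∀ᵐ x ∂(volume.restrict (PB n)), S.u T o x = v x :=
        ae_mono (Measure.restrict_mono (fun x (hx : x ∈ PB n) => hx.1) le_rfl) hae
      filter_upwards [h1] with x hx
      rw [hx]
  obtain ⟨t, ht, hLt⟩ := hL (max (T + 1) (T + 1 - Real.log (min δ 1)))
  have ht1 : T + 1 ≤ t := (le_max_left _ _).trans ht
  have ht2 : T + 1 - Real.log (min δ 1) ≤ t := (le_max_right _ _).trans ht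
  -- the point with τ = t
  set x : E n := Real.exp (T - t) • e o with hx
  have hnx : ‖x‖ = Real.exp (T - t) := by
    rw [hx, norm_smul, Real.norm_of_nonneg (Real.exp_pos _).le]
    simp [e]
  have hm : 0 < min δ 1 := lt_min hδ one_pos
  have hx1 : ‖x‖ < min δ 1 := by
    rw [hnx, ← Real.lt_log_iff_exp_lt hm]
    linarith
  have hxP : x ∈ PB n := by
    refine ⟨?_, ?_⟩
    · rw [mem_ball_zero_iff]; exact hx1.trans_le (min_le_right _ _)
    · intro h
      rw [mem_singleton_iff] at h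
      rw [h, norm_zero] at hnx
      exact (Real.exp_pos _).ne hnx
  have h1 := hLt (sg o x) (sg_sq_le o hxP.2)
  have h2 : tau T x = t := by
    unfold tau
    rw [hnx, Real.log_exp]; ring
  have h3 : S.U i (t, sg o x) = v x i := by
    have := heq hxP
    simp only [u, Pt, h2] at this
    exact this
  rw [h3] at h1
  have h4 := hδb (x := x) (by rw [dist_zero_right]; exact hx1.trans_le (min_le_left _ _))
  rw [Real.dist_eq] at h4
  linarith

end Fr

/-! ### Smallness -/

theorem continuousOn_wT {T : ℝ} (hT : 1 ≤ T) : ContinuousOn (wT T : E n → ℝ) (PB n) := by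
  intro x hx
  have h1 : ContinuousAt (fun y : E n => tau T y) x := by
    unfold tau
    exact continuousAt_const.sub ((continuous_norm.continuousAt).log (norm_pos_of_PB hx).ne')
  have h2 : 0 < tau T x := by have := tau_ge (T := T) hx; linarith
  have h3 : ContinuousAt (fun y : E n => s (tau T y)) x := by
    unfold s
    exact (Real.continuous_sqrt.continuousAt.comp h1).inv₀ (Real.sqrt_pos.2 h2).ne'
  have h4 : ContinuousAt (fun y : E n => ‖y‖⁻¹) x :=
    (continuous_norm.continuousAt).inv₀ (norm_pos_of_PB hx).ne'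
  exact (h4.mul h3).continuousWithinAt

theorem tendsto_int (hn : 3 ≤ n) :
    Tendsto (fun k : ℕ => ∫ x in ball (0 : E n) 1, wT ((k : ℝ) + 1) x ^ n) atTop (𝓝 0) := by
  have h0 : (0 : ℝ) = ∫ x in ball (0 : E n) 1, (0 : ℝ) := by simp
  rw [h0]
  apply tendsto_integral_of_dominated_convergence (fun x => w x ^ n)
  · intro k
    exact aesm hn ((continuousOn_wT (by
      have : (0:ℝ) ≤ k := Nat.cast_nonneg k
      linarith)).pow n)
  · exact integrableOn_w_pow hn
  · intro k
    have hk : (0:ℝ) ≤ k := Nat.cast_nonneg k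
    filter_upwards [ae_PB hn] with x hx
    have h1 := wT_pos (T := (k : ℝ) + 1) (by linarith) hx
    have h2 := wT_le (T := 1) (T' := (k : ℝ) + 1) le_rfl (by linarith) hx
    rw [wT_one] at h2
    rw [Real.norm_of_nonneg (by positivity)]
    gcongr
  · filter_upwards [ae_PB hn] with x hx
    have h1 : Tendsto (fun k : ℕ => tau ((k : ℝ) + 1) x) atTop atTop := by
      unfold tau
      have := tendsto_atTop_add_const_right atTop (1 - Real.log ‖x‖)
        (tendsto_natCast_atTop_atTop (R := ℝ))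
      refine this.congr fun k => ?_
      ring
    have h2 : Tendsto (fun k : ℕ => s (tau ((k : ℝ) + 1) x)) atTop (𝓝 0) := by
      unfold s
      exact tendsto_inv_atTop_zero.comp (Real.tendsto_sqrt_atTop.comp h1)
    have h3 := (h2.const_mul ‖x‖⁻¹).pow n
    rw [mul_zero, zero_pow (by omega)] at h3
    exact h3

theorem exists_small (hn : 3 ≤ n) {δ : ℝ} (hδ : 0 < δ) (T0 : ℝ) :
    ∃ T : ℝ, T0 ≤ T ∧ 1 ≤ T ∧
      eLpNorm (wT T : E n → ℝ) n (volume.restrict (ball 0 1)) ≤ ENNReal.ofReal δ := by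
  have h1 := (tendsto_int hn).eventually (gt_mem_nhds (show (0 : ℝ) < δ ^ n by positivity))
  obtain ⟨k, hk1, hk2⟩ := (h1.and (eventually_ge_atTop ⌈T0⌉₊)).exists
  have hk : (0:ℝ) ≤ k := Nat.cast_nonneg k
  refine ⟨k + 1, ?_, by linarith, ?_⟩
  · have := Nat.le_ceil T0
    have : (⌈T0⌉₊ : ℝ) ≤ k := by exact_mod_cast hk2
    linarith
  · have hn0 : (n : ENNReal) ≠ 0 := by simp; omega
    have hmem : MemLp (wT ((k : ℝ) + 1) : E n → ℝ) n (volume.restrict (ball 0 1)) := by
      refine memLp_of hn (continuousOn_wT (by linarith)) (K := 1) fun x hx => ?_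
      rw [abs_of_pos (wT_pos (by linarith) hx), one_mul]
      have := wT_le (T := 1) (T' := (k : ℝ) + 1) le_rfl (by linarith) hx
      rwa [wT_one] at this
    rw [hmem.eLpNorm_eq_integral_rpow_norm hn0 (by simp)]
    apply ENNReal.ofReal_le_ofReal
    have e1 : ∫ x in ball (0 : E n) 1, ‖wT ((k : ℝ) + 1) x‖ ^ ((n : ENNReal).toReal)
        = ∫ x in ball (0 : E n) 1, wT ((k : ℝ) + 1) x ^ n := by
      apply integral_congr_ae
      filter_upwards [ae_PB hn] with x hx
      rw [Real.norm_of_nonneg (wT_pos (by linarith) hx).le]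
      simp
    rw [e1]
    have h3 : 0 ≤ ∫ x in ball (0 : E n) 1, wT ((k : ℝ) + 1) x ^ n := by
      apply integral_nonneg_of_ae
      filter_upwards [ae_PB hn] with x hx
      exact (pow_pos (wT_pos (by linarith) hx) n).le
    have h4 : ((n : ENNReal).toReal)⁻¹ = ((n : ℝ))⁻¹ := by simp
    rw [h4]
    calc (∫ x in ball (0 : E n) 1, wT ((k : ℝ) + 1) x ^ n) ^ ((n : ℝ))⁻¹
        ≤ (δ ^ n) ^ ((n : ℝ))⁻¹ := Real.rpow_le_rpow h3 hk1.le (by positivity)
      _ = δ := Real.pow_rpow_inv_natCast hδ.le (by omega)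

theorem eLpNorm_le_of {f : E n → ℝ} (hn : 3 ≤ n) {K T δ : ℝ} (hK : 0 ≤ K) (hT : 1 ≤ T)
    (hw : eLpNorm (wT T : E n → ℝ) n (volume.restrict (ball 0 1)) ≤ ENNReal.ofReal δ)
    (h : ∀ x ∈ PB n, |f x| ≤ K * wT T x) :
    eLpNorm f n (volume.restrict (ball 0 1)) ≤ ENNReal.ofReal (K * δ) := by
  have h1 : eLpNorm f n (volume.restrict (ball 0 1))
      ≤ eLpNorm (fun x => K * wT T x) n (volume.restrict (ball (0 : E n) 1)) := by
    apply eLpNorm_mono_ae
    filter_upwards [ae_PB hn] with x hx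
    rw [Real.norm_eq_abs, Real.norm_eq_abs,
      abs_of_nonneg (mul_nonneg hK (wT_pos hT hx).le)]
    exact h x hx
  refine h1.trans ?_
  have h2 : (fun x : E n => K * wT T x) = K • (wT T : E n → ℝ) := rfl
  rw [h2, eLpNorm_const_smul, ENNReal.ofReal_mul hK]
  have h3 : ‖K‖ₑ = ENNReal.ofReal K := by
    rw [← ofReal_norm, Real.norm_of_nonneg hK]
  rw [h3]
  gcongr

end Pool.Agent.Y303.NL
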