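import Pool.Agent.Y303.NL.Bnd
import Pool.Agent.Y303.NL.Weak

/-! The solutions: `m = 2`, `m = 3` (bounded), and padding by zero components. -/

open Set Filter Topology
open scoped ContDiff

namespace Pool.Agent.Y303.NL
open Pool.Agent.Helper566.Profile Pool.Agent.Helper566.Map Pool.Agent.Y303.NL.Core

variable {n m : ℕ}

/-- padding by a zero component -/
noncomputable def Fr.pad {T0 C : ℝ} (S : Fr n m T0 C) : Fr n (m + 1) T0 C where
  U := Fin.cases (fun _ => 0) S.U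
  Ut := Fin.cases (fun _ => 0) S.Ut
  Us := Fin.cases (fun _ => 0) S.Us
  Utt := Fin.cases (fun _ => 0) S.Utt
  Uts := Fin.cases (fun _ => 0) S.Uts
  Ust := Fin.cases (fun _ => 0) S.Ust
  Uss := Fin.cases (fun _ => 0) S.Uss
  A := Fin.cases (fun _ _ => 0) (fun i => Fin.cases (fun _ => 0) (S.A i))
  B := Fin.cases (fun _ _ => 0) (fun i => Fin.cases (fun _ => 0) (S.B i))
  Q := S.Q
  Qt := S.Qt
  Qs := S.Qs
  T1 := S.T1
  C0 := S.C0
  dU := fun i p hp => by
    refine Fin.cases ?_ (fun j => ?_) i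
    · exact D2.const 0
    · exact S.dU j p hp
  dUt := fun i p hp => by
    refine Fin.cases ?_ (fun j => ?_) i
    · exact D2.const 0
    · exact S.dUt j p hp
  dUs := fun i p hp => by
    refine Fin.cases ?_ (fun j => ?_) i
    · exact D2.const 0
    · exact S.dUs j p hp
  dQ := S.dQ
  cU := fun i p hp => by
    refine Fin.cases ?_ (fun j => ?_) i
    · exact contDiffAt_const
    · exact S.cU j p hp
  cUt := fun i p hp => by
    refine Fin.cases ?_ (fun j => ?_) i
    · exact contDiffAt_const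
    · exact S.cUt j p hp
  cUs := fun i p hp => by
    refine Fin.cases ?_ (fun j => ?_) i
    · exact contDiffAt_const
    · exact S.cUs j p hp
  cQ := S.cQ
  cA := fun i j p hp => by
    refine Fin.cases ?_ (fun i => ?_) i
    · exact contDiffAt_const
    · refine Fin.cases ?_ (fun j => ?_) j
      · exact contDiffAt_const
      · exact S.cA i j p hp
  cB := fun i j p hp => by
    refine Fin.cases ?_ (fun i => ?_) i
    · exact contDiffAt_const
    · refine Fin.cases ?_ (fun j => ?_) j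
      · exact contDiffAt_const
      · exact S.cB i j p hp
  Qpos := S.Qpos
  hQ := fun p hp => by
    rw [Fin.sum_univ_succ, S.hQ p hp]
    simp
  eqn := fun i p hp => by
    rw [Fin.sum_univ_succ]
    refine Fin.cases ?_ (fun i => ?_) i
    · simp
    · have := S.eqn i p hp
      simp only [Fin.cases_zero, Fin.cases_succ]
      rw [this]; ring
  aA := fun i j p => by
    refine Fin.cases ?_ (fun i => ?_) i <;> refine Fin.cases ?_ (fun j => ?_) j
    · simp
    · simp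
    · simp
    · exact S.aA i j p
  aB := fun i j p => by
    refine Fin.cases ?_ (fun i => ?_) i <;> refine Fin.cases ?_ (fun j => ?_) j
    · simp
    · simp
    · simp
    · exact S.aB i j p
  bU := fun i p hp => by
    refine Fin.cases ?_ (fun j => ?_) i
    · have := S.C0
      simp only [Fin.cases_zero, abs_zero]; positivity
    · exact S.bU j p hp
  bUt := fun i p hp => by
    refine Fin.cases ?_ (fun j => ?_) i
    · have := S.C0
      simp only [Fin.cases_zero, abs_zero]; positivity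
    · exact S.bUt j p hp
  bUs := fun i p hp => by
    refine Fin.cases ?_ (fun j => ?_) i
    · have := S.C0
      simp only [Fin.cases_zero, abs_zero]; positivity
    · exact S.bUs j p hp
  bA := fun i j p hp => by
    have h0 : (0:ℝ) ≤ C * s p.1 := mul_nonneg S.C0 (s_pos (by have := S.T1; have := hp.1; linarith)).le
    refine Fin.cases ?_ (fun i => ?_) i
    · simpa using h0
    · refine Fin.cases ?_ (fun j => ?_) j
      · simpa using h0
      · exact S.bA i j p hp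
  bB := fun i j p hp => by
    have h0 : (0:ℝ) ≤ C * s p.1 := mul_nonneg S.C0 (s_pos (by have := S.T1; have := hp.1; linarith)).le
    refine Fin.cases ?_ (fun i => ?_) i
    · simpa using h0
    · refine Fin.cases ?_ (fun j => ?_) j
      · simpa using h0
      · exact S.bB i j p hp
  lim := by
    obtain ⟨i, hi⟩ := S.lim
    exact ⟨i.succ, hi⟩

theorem sq_eq (p : ℝ × ℝ) : 1 - p.2 ^ 2 = 1 - p.2 * p.2 := by ring

theorem mem_Rg {p : ℝ × ℝ} (hp : p ∈ Rg 100) : Bd p := mem_bd ⟨hp.1, hp.2⟩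

theorem pos_Rg {p : ℝ × ℝ} (hp : p ∈ Rg 100) : 0 < p.1 := by
  have := hp.1
  linarith

theorem s2_le {p : ℝ × ℝ} (h : Bd p) {x K C : ℝ} {k : ℕ} (hk : 2 ≤ k) (hK : 0 ≤ K) (hKC : K ≤ C)
    (hx : |x| ≤ K * s p.1 ^ k) : |x| ≤ C * s p.1 ^ 2 := by
  refine hx.trans ?_
  have := h.pl hk
  have := h.p0 2
  calc K * s p.1 ^ k ≤ K * s p.1 ^ 2 := by gcongr
    _ ≤ C * s p.1 ^ 2 := by gcongr

theorem s1_le {p : ℝ × ℝ} (h : Bd p) {x K C : ℝ} {k : ℕ} (hk : 1 ≤ k) (hK : 0 ≤ K) (hKC : K ≤ C)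
    (hx : |x| ≤ K * s p.1 ^ k) : |x| ≤ C * s p.1 := by
  refine hx.trans ?_
  have := h.pl hk
  rw [pow_one] at this
  have := h.S0
  calc K * s p.1 ^ k ≤ K * s p.1 := by gcongr
    _ ≤ C * s p.1 := by gcongr

theorem one_le_sqrt {p : ℝ × ℝ} (hp : p ∈ Rg 100) : 1 ≤ Real.sqrt p.1 :=
  Real.one_le_sqrt.2 (by have := hp.1; linarith)

theorem kf0_le {p : ℝ × ℝ} (h : Bd p) : |(1 - p.2 * p.2) * f0 p.1| ≤ 1 / 2 := by
  refine (kb h.k0 h.k1 h.f0).trans ?_
  have h1 := h.pw 2
  have h2 := h.pl (show 0 ≤ 2 by norm_num)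
  rw [pow_zero] at h2
  norm_num at h1
  linarith

theorem v_le {p : ℝ × ℝ} (hp : p ∈ Rg 100) : |v p| ≤ 2 * Real.sqrt p.1 := by
  have h := mem_Rg hp
  have hp0 := pos_Rg hp
  have h1 := kf0_le h
  have h2 : Real.log p.1 = 2 * Real.log (Real.sqrt p.1) := by
    rw [Real.log_sqrt hp0.le]; ring
  have h3 := Real.log_le_sub_one_of_pos (Real.sqrt_pos.2 hp0)
  have h4 : 0 ≤ Real.log p.1 := Real.log_nonneg (by have := hp.1; linarith)
  have h5 := one_le_sqrt hp
  rw [abs_le] at h1 ⊢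
  unfold v
  constructor <;> linarith

theorem z_le' {p : ℝ × ℝ} (hp : p ∈ Rg 100) : |z p| ≤ Real.sqrt p.1 :=
  (mem_Rg hp).z_le.trans (one_le_sqrt hp)

theorem n_ge (hn : 3 ≤ n) : (3:ℝ) ≤ n := by exact_mod_cast hn

/-- the two-component solution -/
noncomputable def two (hn : 3 ≤ n) : Fr n 2 100 (4000 * n) where
  U := ![v, z]
  Ut := ![vt, zt]
  Us := ![vs, zs]
  Utt := ![vtt, ztt]
  Uts := ![vts, zts]
  Ust := ![vts, zts]
  Uss := ![vss, fun _ => 0]
  A := ![![fun _ => 0, Ac n], ![fun p => -Ac n p, fun _ => 0]]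
  B := ![![fun _ => 0, Bc n], ![fun p => -Bc n p, fun _ => 0]]
  Q := Q
  Qt := Qt
  Qs := Qs
  T1 := by norm_num
  C0 := by positivity
  dU := Fin.forall_fin_two.2 ⟨fun p hp => D2_v (pos_Rg hp), fun p hp => D2_z (pos_Rg hp)⟩
  dUt := Fin.forall_fin_two.2 ⟨fun p hp => D2_vt (pos_Rg hp), fun p hp => D2_zt (pos_Rg hp)⟩
  dUs := Fin.forall_fin_two.2 ⟨fun p hp => D2_vs (pos_Rg hp), fun p hp => D2_zs (pos_Rg hp)⟩
  dQ := fun p hp => D2_Q (pos_Rg hp)
  cU := Fin.forall_fin_two.2 ⟨fun p hp => cd_v (pos_Rg hp), fun p hp => cd_z (pos_Rg hp)⟩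
  cUt := Fin.forall_fin_two.2 ⟨fun p hp => cd_vt (pos_Rg hp), fun p hp => cd_zt (pos_Rg hp)⟩
  cUs := Fin.forall_fin_two.2 ⟨fun p hp => cd_vs (pos_Rg hp), fun p hp => cd_zs (pos_Rg hp)⟩
  cQ := fun p hp => cd_Q (pos_Rg hp)
  cA := Fin.forall_fin_two.2 ⟨Fin.forall_fin_two.2 ⟨fun _ _ => contDiffAt_const, fun p hp =>
      cd_Ac n (pos_Rg hp) (mem_Rg hp).Q_pos.ne' (mem_Rg hp).J_pos.ne'⟩,
    Fin.forall_fin_two.2 ⟨fun p hp =>
      (cd_Ac n (pos_Rg hp) (mem_Rg hp).Q_pos.ne' (mem_Rg hp).J_pos.ne').neg,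
      fun _ _ => contDiffAt_const⟩⟩
  cB := Fin.forall_fin_two.2 ⟨Fin.forall_fin_two.2 ⟨fun _ _ => contDiffAt_const, fun p hp =>
      cd_Bc n (pos_Rg hp) (mem_Rg hp).Q_pos.ne' (mem_Rg hp).J_pos.ne'⟩,
    Fin.forall_fin_two.2 ⟨fun p hp =>
      (cd_Bc n (pos_Rg hp) (mem_Rg hp).Q_pos.ne' (mem_Rg hp).J_pos.ne').neg,
      fun _ _ => contDiffAt_const⟩⟩
  Qpos := fun p hp => (mem_Rg hp).Q_pos
  hQ := fun p hp => by
    rw [Fin.sum_univ_two]
    simp only [Matrix.cons_val_zero, Matrix.cons_val_one, Q]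
    ring
  eqn := by
    refine Fin.forall_fin_two.2 ⟨fun p hp => ?_, fun p hp => ?_⟩
    · have h := eq_v (n : ℝ) (mem_Rg hp).Q_pos.ne' (mem_Rg hp).J_pos.ne'
      rw [Fin.sum_univ_two]
      simp only [Matrix.cons_val_zero, Matrix.cons_val_one, Fv] at h ⊢
      linear_combination h
    · have h := eq_z (n : ℝ) (mem_Rg hp).Q_pos.ne' (mem_Rg hp).J_pos.ne'
      rw [Fin.sum_univ_two]
      simp only [Matrix.cons_val_zero, Matrix.cons_val_one, Fz] at h ⊢
      linear_combination h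
  aA := by
    refine Fin.forall_fin_two.2 ⟨Fin.forall_fin_two.2 ⟨fun p => ?_, fun p => ?_⟩,
      Fin.forall_fin_two.2 ⟨fun p => ?_, fun p => ?_⟩⟩ <;> simp
  aB := by
    refine Fin.forall_fin_two.2 ⟨Fin.forall_fin_two.2 ⟨fun p => ?_, fun p => ?_⟩,
      Fin.forall_fin_two.2 ⟨fun p => ?_, fun p => ?_⟩⟩ <;> simp
  bU := by
    have hn' := n_ge hn
    refine Fin.forall_fin_two.2 ⟨fun p hp => ?_, fun p hp => ?_⟩
    · refine (v_le hp).trans ?_
      gcongr
      linarith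
    · refine (z_le' hp).trans ?_
      have := one_le_sqrt hp
      nlinarith
  bUt := by
    have hn' := n_ge hn
    refine Fin.forall_fin_two.2 ⟨fun p hp => ?_, fun p hp => ?_⟩
    · exact s2_le (mem_Rg hp) (K := 2) (k := 2) (by norm_num) (by norm_num) (by linarith)
        (mem_Rg hp).vt_le
    · exact s2_le (mem_Rg hp) (K := 2) (k := 5) (by norm_num) (by norm_num) (by linarith)
        (mem_Rg hp).zt_le
  bUs := by
    have hn' := n_ge hn
    refine Fin.forall_fin_two.2 ⟨fun p hp => ?_, fun p hp => ?_⟩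
    · exact s2_le (mem_Rg hp) (K := 2) (k := 4) (by norm_num) (by norm_num) (by linarith)
        (mem_Rg hp).vs_le
    · exact s2_le (mem_Rg hp) (K := 1) (k := 3) (by norm_num) (by norm_num) (by linarith)
        (by rw [one_mul]; exact (mem_Rg hp).zs_le)
  bA := by
    have hn' := n_ge hn
    have h0 : ∀ p ∈ Rg 100, |(0:ℝ)| ≤ 4000 * n * s p.1 := fun p hp => by
      have := (mem_Rg hp).S0
      rw [abs_zero]; positivity
    refine Fin.forall_fin_two.2 ⟨Fin.forall_fin_two.2 ⟨h0, fun p hp => ?_⟩,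
      Fin.forall_fin_two.2 ⟨fun p hp => ?_, h0⟩⟩
    · exact (mem_Rg hp).Ac_le hn'
    · change |-Ac n p| ≤ _
      rw [abs_neg]
      exact (mem_Rg hp).Ac_le hn'
  bB := by
    have hn' := n_ge hn
    have h0 : ∀ p ∈ Rg 100, |(0:ℝ)| ≤ 4000 * n * s p.1 := fun p hp => by
      have := (mem_Rg hp).S0
      rw [abs_zero]; positivity
    refine Fin.forall_fin_two.2 ⟨Fin.forall_fin_two.2 ⟨h0, fun p hp => ?_⟩,
      Fin.forall_fin_two.2 ⟨fun p hp => ?_, h0⟩⟩
    · exact (mem_Rg hp).Bc_le hn'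
    · change |-Bc n p| ≤ _
      rw [abs_neg]
      exact (mem_Rg hp).Bc_le hn'
  lim := by
    refine ⟨0, fun c => ⟨1, one_pos, fun T' => ?_⟩⟩
    refine ⟨max (max T' 100) (Real.exp (|c| + 2)), (le_max_left _ _).trans (le_max_left _ _), ?_⟩
    intro σ hσ
    set t := max (max T' 100) (Real.exp (|c| + 2)) with ht
    have ht1 : 100 ≤ t := (le_max_right _ _).trans (le_max_left _ _)
    have ht2 : Real.exp (|c| + 2) ≤ t := le_max_right _ _
    have h := kf0_le (mem_Rg (p := (t, σ)) ⟨ht1, hσ⟩)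
    have h1 : |c| + 2 ≤ Real.log t := by
      rw [Real.le_log_iff_exp_le (by linarith)]
      exact ht2
    have h2 := (abs_le.1 h).2
    have h3 := le_abs_self c
    refine le_trans ?_ (le_abs_self _)
    change 1 ≤ (Real.log t - (1 - σ * σ) * f0 t) - c
    simp only at h2
    linarith

end Pool.Agent.Y303.NL
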