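import Pool.Agent.Helper566.Integ

/-! Two-variable jets `(t, σ)` and the divergence of fluxes built from them. -/

open MeasureTheory Set Filter Topology Metric
open scoped RealInnerProductSpace ContDiff

namespace Pool.Agent.Y303.NL
open Pool.Agent.Helper566.Profile Pool.Agent.Helper566.Map

/-- `M` is differentiable at `p` with partial derivatives `Mt p`, `Ms p`. -/
def D2 (M Mt Ms : ℝ × ℝ → ℝ) (p : ℝ × ℝ) : Prop :=
  HasFDerivAt M (Mt p • ContinuousLinearMap.fst ℝ ℝ ℝ + Ms p • ContinuousLinearMap.snd ℝ ℝ ℝ) p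

section rules
variable {M Mt Ms K Kt Ks : ℝ × ℝ → ℝ} {p : ℝ × ℝ}

theorem D2.congr {Mt' Ms' : ℝ × ℝ → ℝ} (h : D2 M Mt Ms p) (h1 : Mt p = Mt' p)
    (h2 : Ms p = Ms' p) : D2 M Mt' Ms' p := by
  unfold D2 at h ⊢
  rw [h1, h2] at h
  exact h

theorem D2.add (h : D2 M Mt Ms p) (k : D2 K Kt Ks p) :
    D2 (fun q => M q + K q) (fun q => Mt q + Kt q) (fun q => Ms q + Ks q) p := by
  have h2 := HasFDerivAt.add h k
  refine h2.congr_fderiv ?_
  ext <;> simp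

theorem D2.sub (h : D2 M Mt Ms p) (k : D2 K Kt Ks p) :
    D2 (fun q => M q - K q) (fun q => Mt q - Kt q) (fun q => Ms q - Ks q) p := by
  have h2 := HasFDerivAt.sub h k
  refine h2.congr_fderiv ?_
  ext <;> simp

theorem D2.neg (h : D2 M Mt Ms p) :
    D2 (fun q => - M q) (fun q => - Mt q) (fun q => - Ms q) p := by
  have h2 := HasFDerivAt.neg h
  refine h2.congr_fderiv ?_
  ext <;> simp

theorem D2.mul (h : D2 M Mt Ms p) (k : D2 K Kt Ks p) :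
    D2 (fun q => M q * K q) (fun q => Mt q * K q + M q * Kt q)
      (fun q => Ms q * K q + M q * Ks q) p := by
  have h2 := HasFDerivAt.mul h k
  refine h2.congr_fderiv ?_
  ext
  · simp; ring
  · simp; ring

theorem D2.const (c : ℝ) : D2 (fun _ => c) (fun _ => 0) (fun _ => 0) p := by
  have h2 := hasFDerivAt_const (𝕜 := ℝ) c p
  refine h2.congr_fderiv ?_
  ext <;> simp

theorem D2.cmul (c : ℝ) (h : D2 M Mt Ms p) :
    D2 (fun q => c * M q) (fun q => c * Mt q) (fun q => c * Ms q) p :=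
  ((D2.const c).mul h).congr (by simp) (by simp)

theorem D2.tv {a a' : ℝ → ℝ} (h : HasDerivAt a (a' p.1) p.1) :
    D2 (fun q => a q.1) (fun q => a' q.1) (fun _ => 0) p := by
  have h2 := HasDerivAt.comp_hasFDerivAt (h₂ := a) p h
    (hasFDerivAt_fst (𝕜 := ℝ) (E := ℝ) (F := ℝ) (p := p))
  refine h2.congr_fderiv ?_
  ext <;> simp

theorem D2.sv : D2 (fun q => q.2) (fun _ => 0) (fun _ => 1) p := by
  have h2 := hasFDerivAt_snd (𝕜 := ℝ) (E := ℝ) (F := ℝ) (p := p)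
  refine h2.congr_fderiv ?_
  ext <;> simp

theorem D2.comp {f f' : ℝ → ℝ} (hf : HasDerivAt f (f' (M p)) (M p)) (h : D2 M Mt Ms p) :
    D2 (fun q => f (M q)) (fun q => f' (M q) * Mt q) (fun q => f' (M q) * Ms q) p := by
  have h2 := HasDerivAt.comp_hasFDerivAt (h₂ := f) p hf h
  refine h2.congr_fderiv ?_
  ext <;> simp

/-- `(√Q)^k` -/
theorem D2.sqrtPow {Q Qt Qs : ℝ × ℝ → ℝ} (k : ℕ) (hQ : 0 < Q p) (h : D2 Q Qt Qs p) :
    D2 (fun q => Real.sqrt (Q q) ^ k)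
      (fun q => (k : ℝ) / 2 * (Qt q / Q q) * Real.sqrt (Q q) ^ k)
      (fun q => (k : ℝ) / 2 * (Qs q / Q q) * Real.sqrt (Q q) ^ k) p := by
  have hs : Real.sqrt (Q p) ≠ 0 := (Real.sqrt_pos.2 hQ).ne'
  have h1 : HasDerivAt (fun y : ℝ => Real.sqrt y ^ k)
      ((fun y => (k : ℝ) / 2 * (1 / y) * Real.sqrt y ^ k) (Q p)) (Q p) := by
    refine ((Real.hasDerivAt_sqrt hQ.ne').pow k).congr_deriv ?_
    have e2 : Q p = Real.sqrt (Q p) * Real.sqrt (Q p) := (Real.mul_self_sqrt hQ.le).symm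
    rcases k with _ | k
    · simp
    · rw [Nat.add_sub_cancel]
      have : (1 : ℝ) / Q p = 1 / (Real.sqrt (Q p) * Real.sqrt (Q p)) := by rw [← e2]
      simp only [this]
      push_cast
      field_simp
      rw [pow_succ]
  refine (D2.comp (f' := fun y => (k : ℝ) / 2 * (1 / y) * Real.sqrt y ^ k) h1 h).congr ?_ ?_
  · ring
  · ring

end rules

variable {n : ℕ}

/-- `τ = T - log |x|` -/
noncomputable def tau (T : ℝ) (x : E n) : ℝ := T - Real.log ‖x‖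

/-- `σ = x_o / |x|` -/
noncomputable def sg (o : Fin n) (x : E n) : ℝ := ‖x‖⁻¹ * x o

/-- the point `(τ, σ)` -/
noncomputable def Pt (T : ℝ) (o : Fin n) (x : E n) : ℝ × ℝ := (tau T x, sg o x)

/-- `∂_α τ` -/
noncomputable def dT (x : E n) (α : Fin n) : ℝ := -((‖x‖⁻¹) ^ 2 * x α)

/-- `∂_α σ` -/
noncomputable def dS (o : Fin n) (x : E n) (α : Fin n) : ℝ :=
  ‖x‖⁻¹ * e o α - (‖x‖⁻¹) ^ 3 * (x o * x α)

theorem hasFDerivAt_invpow (k : ℕ) {x : E n} (hx : x ≠ 0) :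
    HasFDerivAt (fun y : E n => (‖y‖⁻¹) ^ k)
      ((-(k : ℝ) * (‖x‖⁻¹) ^ (k + 2)) • innerSL ℝ x) x := by
  have h := radial (a := fun _ => (1 : ℝ)) (a' := fun _ => 0) k hx (hasDerivAt_const _ _)
  simpa using h

theorem hasFDerivAt_tau (T : ℝ) {x : E n} (hx : x ≠ 0) :
    HasFDerivAt (tau T : E n → ℝ) ((-(‖x‖⁻¹) ^ 2) • innerSL ℝ x) x := by
  have hn : ‖x‖ ≠ 0 := norm_ne_zero_iff.2 hx
  have h1 : HasDerivAt (fun ρ : ℝ => T - Real.log ρ) (-‖x‖⁻¹) ‖x‖ := by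
    simpa using (Real.hasDerivAt_log hn).const_sub T
  have h5 := h1.comp_hasFDerivAt x (hasFDerivAt_norm hx)
  refine h5.congr_fderiv ?_
  rw [smul_smul]
  congr 1
  ring

theorem hasFDerivAt_sg (o : Fin n) {x : E n} (hx : x ≠ 0) :
    HasFDerivAt (sg o : E n → ℝ)
      (‖x‖⁻¹ • innerSL ℝ (e o) + (-((‖x‖⁻¹) ^ 3 * x o)) • innerSL ℝ x) x := by
  have h := (hasFDerivAt_invpow 1 hx).mul (hasFDerivAt_coord o x)
  have hfun : (sg o : E n → ℝ) = (fun y : E n => (‖y‖⁻¹) ^ 1) * (fun y : E n => y o) := by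
    ext y; simp [sg]
  rw [hfun]
  refine h.congr_fderiv ?_
  ext v
  simp
  ring

theorem innerSL_e' (o α : Fin n) : innerSL ℝ (e o) (e α) = e o α := by
  rw [innerSL_e]

theorem hasFDerivAt_Pt (T : ℝ) (o : Fin n) {x : E n} (hx : x ≠ 0) {M Mt Ms : ℝ × ℝ → ℝ}
    (h : D2 M Mt Ms (Pt T o x)) :
    HasFDerivAt (fun y : E n => M (Pt T o y))
      (Mt (Pt T o x) • ((-(‖x‖⁻¹) ^ 2) • innerSL ℝ x)
        + Ms (Pt T o x) • (‖x‖⁻¹ • innerSL ℝ (e o) + (-((‖x‖⁻¹) ^ 3 * x o)) • innerSL ℝ x)) x := by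
  have h1 : HasFDerivAt (Pt T o : E n → ℝ × ℝ) _ x :=
    (hasFDerivAt_tau T hx).prodMk (hasFDerivAt_sg o hx)
  have h2 := HasFDerivAt.comp x h h1
  simp only [Function.comp_def] at h2
  refine h2.congr_fderiv ?_
  ext v
  simp

theorem fderiv_Pt (T : ℝ) (o : Fin n) {x : E n} (hx : x ≠ 0) {M Mt Ms : ℝ × ℝ → ℝ}
    (h : D2 M Mt Ms (Pt T o x)) (α : Fin n) :
    fderiv ℝ (fun y : E n => M (Pt T o y)) x (e α)
      = Mt (Pt T o x) * dT x α + Ms (Pt T o x) * dS o x α := by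
  rw [(hasFDerivAt_Pt T o hx h).fderiv]
  simp only [add_apply, smul_apply, innerSL_e, smul_eq_mul, dT, dS]
  ring

theorem sum_mul_e (o : Fin n) (x : E n) : ∑ α : Fin n, x α * e o α = x o := by
  simp [e_apply]

theorem sum_e (o : Fin n) : ∑ α : Fin n, (e o α : ℝ) = 1 := by
  simp [e_apply]

theorem sum_e_sq (o : Fin n) : ∑ α : Fin n, (e o α : ℝ) * e o α = 1 := by
  simp [e_apply]

theorem e_self (o : Fin n) : (e o o : ℝ) = 1 := by simp [e_apply]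

theorem sum_dT_dT {x : E n} (hx : x ≠ 0) : ∑ α, dT x α * dT x α = (‖x‖⁻¹) ^ 2 := by
  have hN : ‖x‖⁻¹ * ‖x‖ = 1 := inv_mul_cancel₀ (norm_ne_zero_iff.2 hx)
  have h1 : ∀ α : Fin n, dT x α * dT x α = (‖x‖⁻¹) ^ 4 * (x α * x α) := fun α => by
    unfold dT; ring
  simp only [h1, ← Finset.mul_sum, sum_sq]
  linear_combination (‖x‖⁻¹) ^ 2 * (‖x‖⁻¹ * ‖x‖ + 1) * hN

theorem sum_x_dT {x : E n} (hx : x ≠ 0) : ∑ α, x α * dT x α = -1 := by
  have hN : ‖x‖⁻¹ * ‖x‖ = 1 := inv_mul_cancel₀ (norm_ne_zero_iff.2 hx)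
  have h1 : ∀ α : Fin n, x α * dT x α = -(‖x‖⁻¹) ^ 2 * (x α * x α) := fun α => by
    unfold dT; ring
  simp only [h1, ← Finset.mul_sum, sum_sq]
  linear_combination -(‖x‖⁻¹ * ‖x‖ + 1) * hN

theorem sum_x_dS (o : Fin n) {x : E n} (hx : x ≠ 0) : ∑ α, x α * dS o x α = 0 := by
  have hN : ‖x‖⁻¹ * ‖x‖ = 1 := inv_mul_cancel₀ (norm_ne_zero_iff.2 hx)
  have h1 : ∀ α : Fin n, x α * dS o x α
      = ‖x‖⁻¹ * (x α * e o α) - (‖x‖⁻¹) ^ 3 * x o * (x α * x α) := fun α => by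
    unfold dS; ring
  simp only [h1, Finset.sum_sub_distrib, ← Finset.mul_sum, sum_sq, sum_mul_e]
  linear_combination -(‖x‖⁻¹ * x o * (‖x‖⁻¹ * ‖x‖ + 1)) * hN

theorem sum_dT_dS (o : Fin n) {x : E n} (hx : x ≠ 0) : ∑ α, dT x α * dS o x α = 0 := by
  have h1 : ∀ α : Fin n, dT x α * dS o x α = -(‖x‖⁻¹) ^ 2 * (x α * dS o x α) := fun α => by
    unfold dT; ring
  simp only [h1, ← Finset.mul_sum, sum_x_dS o hx, mul_zero]

theorem sum_e_dS (o : Fin n) {x : E n} :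
    ∑ α, (e o α : ℝ) * dS o x α = ‖x‖⁻¹ * (1 - sg o x ^ 2) := by
  have h1 : ∀ α : Fin n, e o α * dS o x α
      = ‖x‖⁻¹ * (e o α * e o α) - (‖x‖⁻¹) ^ 3 * x o * (x α * e o α) := fun α => by
    unfold dS; ring
  simp only [h1, Finset.sum_sub_distrib, ← Finset.mul_sum, sum_mul_e, e_self]
  unfold sg; ring

theorem sum_dS_dS (o : Fin n) {x : E n} (hx : x ≠ 0) :
    ∑ α, dS o x α * dS o x α = (‖x‖⁻¹) ^ 2 * (1 - sg o x ^ 2) := by
  have h1 : ∀ α : Fin n, dS o x α * dS o x α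
      = ‖x‖⁻¹ * (e o α * dS o x α) - (‖x‖⁻¹) ^ 3 * x o * (x α * dS o x α) := fun α => by
    conv_lhs => rw [show dS o x α * dS o x α = (‖x‖⁻¹ * e o α - (‖x‖⁻¹) ^ 3 * (x o * x α)) * dS o x α
      from rfl]
    ring
  simp only [h1, Finset.sum_sub_distrib, ← Finset.mul_sum, sum_e_dS, sum_x_dS o hx]
  ring

theorem sg_sq_le (o : Fin n) {x : E n} (hx : x ≠ 0) : sg o x ^ 2 ≤ 1 := by
  have h1 := abs_coord_le x o
  have h2 := norm_pos_iff.2 hx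
  have h3 : |sg o x| ≤ 1 := by
    rw [sg, abs_mul, abs_of_pos (inv_pos.2 h2), inv_mul_le_iff₀ h2, mul_one]
    exact h1
  exact (sq_le_one_iff_abs_le_one _).2 h3

/-- flux in direction `∇τ` -/
noncomputable def flT (n' : ℕ) (M : ℝ × ℝ → ℝ) (T : ℝ) (o α : Fin n) (x : E n) : ℝ :=
  (‖x‖⁻¹) ^ n' * (M (Pt T o x) * dT x α)

/-- flux in direction `∇σ` -/
noncomputable def flS (n' : ℕ) (M : ℝ × ℝ → ℝ) (T : ℝ) (o α : Fin n) (x : E n) : ℝ :=
  (‖x‖⁻¹) ^ n' * (M (Pt T o x) * dS o x α)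

theorem div_flT {N : ℕ} (hN : n = N + 2) (T : ℝ) (o : Fin n) {x : E n} (hx : x ≠ 0)
    {M Mt Ms : ℝ × ℝ → ℝ} (h : D2 M Mt Ms (Pt T o x)) :
    (∀ α, DifferentiableAt ℝ (flT N M T o α) x) ∧
    ∑ α, fderiv ℝ (flT N M T o α) x (e α) = (‖x‖⁻¹) ^ n * Mt (Pt T o x) := by
  subst hN
  have hN1 : ‖x‖⁻¹ * ‖x‖ = 1 := inv_mul_cancel₀ (norm_ne_zero_iff.2 hx)
  have key : ∀ α : Fin (N + 2), HasFDerivAt (flT N M T o α) _ x := fun α => by
    have h1 := ((hasFDerivAt_invpow (N + 2) hx).mul (hasFDerivAt_coord α x)).mul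
      (hasFDerivAt_Pt T o hx h)
    have h2 := h1.neg
    have hfun : flT N M T o α = -((fun y : E (N + 2) => (‖y‖⁻¹) ^ (N + 2)) * (fun y : E (N + 2) => y α)
        * fun y : E (N + 2) => M (Pt T o y)) := by
      ext y
      simp [flT, dT]
      ring
    rw [hfun]
    exact h2
  refine ⟨fun α => (key α).differentiableAt, ?_⟩
  have h3 : ∀ α : Fin (N + 2), fderiv ℝ (flT N M T o α) x (e α)
      = ((N : ℝ) + 2) * (‖x‖⁻¹) ^ (N + 4) * M (Pt T o x) * (x α * x α)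
        - (‖x‖⁻¹) ^ (N + 2) * M (Pt T o x)
        - (‖x‖⁻¹) ^ (N + 2) * (Mt (Pt T o x) * (x α * dT x α) + Ms (Pt T o x) * (x α * dS o x α)) := by
    intro α
    rw [(key α).fderiv]
    have e3 : (e α α : ℝ) = 1 := by simp [e_apply]
    simp only [add_apply, smul_apply, innerSL_e, smul_eq_mul, neg_apply, dT, dS, e3, Pi.mul_apply]
    push_cast
    ring
  simp only [h3, Finset.sum_sub_distrib, ← Finset.mul_sum, Finset.sum_add_distrib, sum_sq,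
    sum_x_dT hx, sum_x_dS o hx]
  simp only [Finset.sum_const, Finset.card_univ, Fintype.card_fin, nsmul_eq_mul]
  push_cast
  linear_combination (((N : ℝ) + 2) * (‖x‖⁻¹) ^ (N + 2) * M (Pt T o x) * (‖x‖⁻¹ * ‖x‖ + 1)) * hN1

theorem div_flS {N : ℕ} (hN : n = N + 2) (T : ℝ) (o : Fin n) {x : E n} (hx : x ≠ 0)
    {M Mt Ms : ℝ × ℝ → ℝ} (h : D2 M Mt Ms (Pt T o x)) :
    (∀ α, DifferentiableAt ℝ (flS N M T o α) x) ∧
    ∑ α, fderiv ℝ (flS N M T o α) x (e α)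
      = (‖x‖⁻¹) ^ n * ((1 - sg o x ^ 2) * Ms (Pt T o x)
        - ((n : ℝ) - 1) * sg o x * M (Pt T o x)) := by
  subst hN
  have hN1 : ‖x‖⁻¹ * ‖x‖ = 1 := inv_mul_cancel₀ (norm_ne_zero_iff.2 hx)
  have key : ∀ α : Fin (N + 2), HasFDerivAt (flS N M T o α) _ x := fun α => by
    have h1 := (((hasFDerivAt_invpow (N + 1) hx).mul_const (e o α)).sub
      ((hasFDerivAt_invpow (N + 3) hx).mul ((hasFDerivAt_coord o x).mul
        (hasFDerivAt_coord α x)))).mul (hasFDerivAt_Pt T o hx h)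
    have hfun : flS N M T o α = ((fun y : E (N + 2) => (‖y‖⁻¹) ^ (N + 1) * e o α)
        - (fun y : E (N + 2) => (‖y‖⁻¹) ^ (N + 3)) * ((fun y : E (N + 2) => y o) * fun y : E (N + 2) => y α))
        * fun y : E (N + 2) => M (Pt T o y) := by
      ext y
      simp [flS, dS]
      ring
    rw [hfun]
    exact h1
  refine ⟨fun α => (key α).differentiableAt, ?_⟩
  have h3 : ∀ α : Fin (N + 2), fderiv ℝ (flS N M T o α) x (e α)
      = -((N : ℝ) + 1) * (‖x‖⁻¹) ^ (N + 3) * M (Pt T o x) * (x α * e o α)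
        + ((N : ℝ) + 3) * (‖x‖⁻¹) ^ (N + 5) * x o * M (Pt T o x) * (x α * x α)
        - (‖x‖⁻¹) ^ (N + 3) * M (Pt T o x) * (x α * e o α)
        - (‖x‖⁻¹) ^ (N + 3) * M (Pt T o x) * x o
        + (‖x‖⁻¹) ^ N * (Mt (Pt T o x) * (dT x α * dS o x α)
          + Ms (Pt T o x) * (dS o x α * dS o x α)) := by
    intro α
    rw [(key α).fderiv]
    have e3 : (e α α : ℝ) = 1 := by simp [e_apply]
    have e4 : (e o α : ℝ) * x o = e o α * x α := by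
      rw [e_apply]; split_ifs with h
      · rw [h]
      · simp
    simp only [add_apply, smul_apply, innerSL_e, smul_eq_mul, neg_apply, sub_apply, dT, dS, e3,
      Pi.mul_apply, Pi.sub_apply]
    push_cast
    ring
  simp only [h3, Finset.sum_sub_distrib, ← Finset.mul_sum, Finset.sum_add_distrib, sum_sq,
    sum_mul_e, sum_dT_dS o hx, sum_dS_dS o hx]
  simp only [Finset.sum_const, Finset.card_univ, Fintype.card_fin, nsmul_eq_mul]
  unfold sg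
  push_cast
  linear_combination (((N : ℝ) + 3) * (‖x‖⁻¹) ^ (N + 3) * x o * M (Pt T o x)
    * (‖x‖⁻¹ * ‖x‖ + 1)) * hN1

end Pool.Agent.Y303.NL
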