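import Pool.Agent.Y303.NL.Inst

/-! The bounded solution with three components `(cos v, sin v, z)`. -/

open Set Filter Topology
open scoped ContDiff

namespace Pool.Agent.Y303.NL
open Pool.Agent.Helper566.Profile Pool.Agent.Helper566.Map Pool.Agent.Y303.NL.Core

variable {n m : ℕ}

theorem forall3 {P : Fin 3 → Prop} (h0 : P 0) (h1 : P 1) (h2 : P 2) : ∀ i, P i := by
  intro i
  fin_cases i
  · exact h0
  · exact h1
  · exact h2

/-- `cos v` -/
noncomputable def cv (p : ℝ × ℝ) : ℝ := Real.cos (v p)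
/-- `sin v` -/
noncomputable def sv (p : ℝ × ℝ) : ℝ := Real.sin (v p)

theorem D2_cv {p : ℝ × ℝ} (hp : 0 < p.1) :
    D2 cv (fun q => -(sv q * vt q)) (fun q => -(sv q * vs q)) p := by
  refine (D2.comp (f := Real.cos) (f' := fun y => -Real.sin y) (Real.hasDerivAt_cos _)
    (D2_v hp)).congr ?_ ?_
  · simp only [sv]; ring
  · simp only [sv]; ring

theorem D2_sv {p : ℝ × ℝ} (hp : 0 < p.1) :
    D2 sv (fun q => cv q * vt q) (fun q => cv q * vs q) p :=
  D2.comp (f := Real.sin) (f' := fun y => Real.cos y) (Real.hasDerivAt_sin _) (D2_v hp)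

theorem cd_cv {p : ℝ × ℝ} (hp : 0 < p.1) : ContDiffAt ℝ ∞ cv p :=
  Real.contDiff_cos.contDiffAt.comp p (cd_v hp)

theorem cd_sv {p : ℝ × ℝ} (hp : 0 < p.1) : ContDiffAt ℝ ∞ sv p :=
  Real.contDiff_sin.contDiffAt.comp p (cd_v hp)

theorem cv_le (p : ℝ × ℝ) : |cv p| ≤ 1 := Real.abs_cos_le_one _
theorem sv_le (p : ℝ × ℝ) : |sv p| ≤ 1 := Real.abs_sin_le_one _

theorem one_mul_le {a x y : ℝ} (ha : |a| ≤ 1) (hx : |x| ≤ y) : |a * x| ≤ y := by
  have := ab ha hx
  rwa [one_mul] at this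

theorem one_mul_le' {a x y : ℝ} (ha : |a| ≤ 1) (hx : |x| ≤ y) : |-(a * x)| ≤ y := by
  rw [abs_neg]; exact one_mul_le ha hx

/-- the bounded solution with three components -/
noncomputable def three (hn : 3 ≤ n) : Fr n 3 100 (4000 * n) where
  U := ![cv, sv, z]
  Ut := ![fun q => -(sv q * vt q), fun q => cv q * vt q, zt]
  Us := ![fun q => -(sv q * vs q), fun q => cv q * vs q, zs]
  Utt := ![fun q => -(cv q * vt q * vt q + sv q * vtt q),
    fun q => -(sv q * vt q) * vt q + cv q * vtt q, ztt]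
  Uts := ![fun q => -(cv q * vs q * vt q + sv q * vts q),
    fun q => -(sv q * vs q) * vt q + cv q * vts q, zts]
  Ust := ![fun q => -(cv q * vt q * vs q + sv q * vts q),
    fun q => -(sv q * vt q) * vs q + cv q * vts q, zts]
  Uss := ![fun q => -(cv q * vs q * vs q + sv q * vss q),
    fun q => -(sv q * vs q) * vs q + cv q * vss q, fun _ => 0]
  A := ![![fun _ => 0, vt, fun p => -(sv p * Ac n p)],
    ![fun p => -vt p, fun _ => 0, fun p => cv p * Ac n p],
    ![fun p => sv p * Ac n p, fun p => -(cv p * Ac n p), fun _ => 0]]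
  B := ![![fun _ => 0, vs, fun p => -(sv p * Bc n p)],
    ![fun p => -vs p, fun _ => 0, fun p => cv p * Bc n p],
    ![fun p => sv p * Bc n p, fun p => -(cv p * Bc n p), fun _ => 0]]
  Q := Q
  Qt := Qt
  Qs := Qs
  T1 := by norm_num
  C0 := by positivity
  dU := forall3 (fun p hp => D2_cv (pos_Rg hp)) (fun p hp => D2_sv (pos_Rg hp))
    (fun p hp => D2_z (pos_Rg hp))
  dUt := forall3 (fun p hp => ((D2_sv (pos_Rg hp)).mul (D2_vt (pos_Rg hp))).neg)
    (fun p hp => (D2_cv (pos_Rg hp)).mul (D2_vt (pos_Rg hp)))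
    (fun p hp => D2_zt (pos_Rg hp))
  dUs := forall3 (fun p hp => ((D2_sv (pos_Rg hp)).mul (D2_vs (pos_Rg hp))).neg)
    (fun p hp => (D2_cv (pos_Rg hp)).mul (D2_vs (pos_Rg hp)))
    (fun p hp => D2_zs (pos_Rg hp))
  dQ := fun p hp => D2_Q (pos_Rg hp)
  cU := forall3 (fun p hp => cd_cv (pos_Rg hp)) (fun p hp => cd_sv (pos_Rg hp))
    (fun p hp => cd_z (pos_Rg hp))
  cUt := forall3 (fun p hp => ((cd_sv (pos_Rg hp)).mul (cd_vt (pos_Rg hp))).neg)
    (fun p hp => (cd_cv (pos_Rg hp)).mul (cd_vt (pos_Rg hp)))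
    (fun p hp => cd_zt (pos_Rg hp))
  cUs := forall3 (fun p hp => ((cd_sv (pos_Rg hp)).mul (cd_vs (pos_Rg hp))).neg)
    (fun p hp => (cd_cv (pos_Rg hp)).mul (cd_vs (pos_Rg hp)))
    (fun p hp => cd_zs (pos_Rg hp))
  cQ := fun p hp => cd_Q (pos_Rg hp)
  cA := by
    have hA : ∀ p ∈ Rg 100, ContDiffAt ℝ ∞ (Ac n) p := fun p hp =>
      cd_Ac n (pos_Rg hp) (mem_Rg hp).Q_pos.ne' (mem_Rg hp).J_pos.ne'
    refine forall3 (forall3 ?_ ?_ ?_) (forall3 ?_ ?_ ?_) (forall3 ?_ ?_ ?_) <;> intro p hp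
    · exact contDiffAt_const
    · exact cd_vt (pos_Rg hp)
    · exact ((cd_sv (pos_Rg hp)).mul (hA p hp)).neg
    · exact (cd_vt (pos_Rg hp)).neg
    · exact contDiffAt_const
    · exact (cd_cv (pos_Rg hp)).mul (hA p hp)
    · exact (cd_sv (pos_Rg hp)).mul (hA p hp)
    · exact ((cd_cv (pos_Rg hp)).mul (hA p hp)).neg
    · exact contDiffAt_const
  cB := by
    have hA : ∀ p ∈ Rg 100, ContDiffAt ℝ ∞ (Bc n) p := fun p hp =>
      cd_Bc n (pos_Rg hp) (mem_Rg hp).Q_pos.ne' (mem_Rg hp).J_pos.ne'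
    refine forall3 (forall3 ?_ ?_ ?_) (forall3 ?_ ?_ ?_) (forall3 ?_ ?_ ?_) <;> intro p hp
    · exact contDiffAt_const
    · exact cd_vs (pos_Rg hp)
    · exact ((cd_sv (pos_Rg hp)).mul (hA p hp)).neg
    · exact (cd_vs (pos_Rg hp)).neg
    · exact contDiffAt_const
    · exact (cd_cv (pos_Rg hp)).mul (hA p hp)
    · exact (cd_sv (pos_Rg hp)).mul (hA p hp)
    · exact ((cd_cv (pos_Rg hp)).mul (hA p hp)).neg
    · exact contDiffAt_const
  Qpos := fun p hp => (mem_Rg hp).Q_pos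
  hQ := fun p hp => by
    rw [Fin.sum_univ_three]
    have h : cv p ^ 2 + sv p ^ 2 = 1 := Real.cos_sq_add_sin_sq _
    change Q p = ((-(sv p * vt p)) ^ 2 + (1 - p.2 ^ 2) * (-(sv p * vs p)) ^ 2)
      + ((cv p * vt p) ^ 2 + (1 - p.2 ^ 2) * (cv p * vs p) ^ 2)
      + (zt p ^ 2 + (1 - p.2 ^ 2) * zs p ^ 2)
    unfold Q
    linear_combination (-(vt p ^ 2 + (1 - p.2 ^ 2) * vs p ^ 2)) * h
  eqn := by
    refine forall3 (fun p hp => ?_) (fun p hp => ?_) (fun p hp => ?_)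
    · have h := eq_v (n : ℝ) (mem_Rg hp).Q_pos.ne' (mem_Rg hp).J_pos.ne'
      rw [Fin.sum_univ_three]
      change -(cv p * vt p * vt p + sv p * vtt p) + (1 - p.2 ^ 2) * -(cv p * vs p * vs p + sv p * vss p)
        - ((n : ℝ) - 1) * p.2 * -(sv p * vs p)
        + ((n : ℝ) - 2) / 2 * ((Qt p * -(sv p * vt p) + (1 - p.2 ^ 2) * Qs p * -(sv p * vs p)) / Q p)
        = -((0 * -(sv p * vt p) + (1 - p.2 ^ 2) * (0 * -(sv p * vs p)))
          + (vt p * (cv p * vt p) + (1 - p.2 ^ 2) * (vs p * (cv p * vs p)))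
          + (-(sv p * Ac n p) * zt p + (1 - p.2 ^ 2) * (-(sv p * Bc n p) * zs p)))
      unfold Fv at h
      linear_combination (-sv p) * h
    · have h := eq_v (n : ℝ) (mem_Rg hp).Q_pos.ne' (mem_Rg hp).J_pos.ne'
      rw [Fin.sum_univ_three]
      change -(sv p * vt p) * vt p + cv p * vtt p + (1 - p.2 ^ 2) * (-(sv p * vs p) * vs p + cv p * vss p)
        - ((n : ℝ) - 1) * p.2 * (cv p * vs p)
        + ((n : ℝ) - 2) / 2 * ((Qt p * (cv p * vt p) + (1 - p.2 ^ 2) * Qs p * (cv p * vs p)) / Q p)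
        = -((-vt p * -(sv p * vt p) + (1 - p.2 ^ 2) * (-vs p * -(sv p * vs p)))
          + (0 * (cv p * vt p) + (1 - p.2 ^ 2) * (0 * (cv p * vs p)))
          + (cv p * Ac n p * zt p + (1 - p.2 ^ 2) * (cv p * Bc n p * zs p)))
      unfold Fv at h
      linear_combination (cv p) * h
    · have h := eq_z (n : ℝ) (mem_Rg hp).Q_pos.ne' (mem_Rg hp).J_pos.ne'
      have h1 : cv p ^ 2 + sv p ^ 2 = 1 := Real.cos_sq_add_sin_sq _
      rw [Fin.sum_univ_three]
      change ztt p + (1 - p.2 ^ 2) * 0 - ((n : ℝ) - 1) * p.2 * zs p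
        + ((n : ℝ) - 2) / 2 * ((Qt p * zt p + (1 - p.2 ^ 2) * Qs p * zs p) / Q p)
        = -((sv p * Ac n p * -(sv p * vt p) + (1 - p.2 ^ 2) * (sv p * Bc n p * -(sv p * vs p)))
          + (-(cv p * Ac n p) * (cv p * vt p) + (1 - p.2 ^ 2) * (-(cv p * Bc n p) * (cv p * vs p)))
          + (0 * zt p + (1 - p.2 ^ 2) * (0 * zs p)))
      unfold Fz at h
      linear_combination h - (Ac n p * vt p + (1 - p.2 ^ 2) * (Bc n p * vs p)) * h1
  aA := by
    refine forall3 (forall3 ?_ ?_ ?_) (forall3 ?_ ?_ ?_) (forall3 ?_ ?_ ?_) <;> intro p <;> simp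
  aB := by
    refine forall3 (forall3 ?_ ?_ ?_) (forall3 ?_ ?_ ?_) (forall3 ?_ ?_ ?_) <;> intro p <;> simp
  bU := by
    have hn' := n_ge hn
    have h1 : ∀ p ∈ Rg 100, ∀ x : ℝ, |x| ≤ 1 → |x| ≤ 4000 * n * Real.sqrt p.1 := by
      intro p hp x hx
      have := one_le_sqrt hp
      nlinarith
    refine forall3 (fun p hp => ?_) (fun p hp => ?_) (fun p hp => ?_)
    · exact h1 p hp _ (cv_le p)
    · exact h1 p hp _ (sv_le p)
    · exact h1 p hp _ (mem_Rg hp).z_le
  bUt := by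
    have hn' := n_ge hn
    have hv : ∀ p ∈ Rg 100, |vt p| ≤ 4000 * n * s p.1 ^ 2 := fun p hp =>
      s2_le (mem_Rg hp) (K := 2) (k := 2) (by norm_num) (by norm_num) (by linarith)
        (mem_Rg hp).vt_le
    refine forall3 (fun p hp => ?_) (fun p hp => ?_) (fun p hp => ?_)
    · exact one_mul_le' (sv_le p) (hv p hp)
    · exact one_mul_le (cv_le p) (hv p hp)
    · exact s2_le (mem_Rg hp) (K := 2) (k := 5) (by norm_num) (by norm_num) (by linarith)
        (mem_Rg hp).zt_le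
  bUs := by
    have hn' := n_ge hn
    have hv : ∀ p ∈ Rg 100, |vs p| ≤ 4000 * n * s p.1 ^ 2 := fun p hp =>
      s2_le (mem_Rg hp) (K := 2) (k := 4) (by norm_num) (by norm_num) (by linarith)
        (mem_Rg hp).vs_le
    refine forall3 (fun p hp => ?_) (fun p hp => ?_) (fun p hp => ?_)
    · exact one_mul_le' (sv_le p) (hv p hp)
    · exact one_mul_le (cv_le p) (hv p hp)
    · exact s2_le (mem_Rg hp) (K := 1) (k := 3) (by norm_num) (by norm_num) (by linarith)
        (by rw [one_mul]; exact (mem_Rg hp).zs_le)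
  bA := by
    have hn' := n_ge hn
    have h0 : ∀ p ∈ Rg 100, |(0:ℝ)| ≤ 4000 * n * s p.1 := fun p hp => by
      have := (mem_Rg hp).S0
      rw [abs_zero]; positivity
    have hv : ∀ p ∈ Rg 100, |vt p| ≤ 4000 * n * s p.1 := fun p hp =>
      s1_le (mem_Rg hp) (K := 2) (k := 2) (by norm_num) (by norm_num) (by linarith)
        (mem_Rg hp).vt_le
    have hA : ∀ p ∈ Rg 100, |Ac n p| ≤ 4000 * n * s p.1 := fun p hp => (mem_Rg hp).Ac_le hn'
    refine forall3 (forall3 h0 hv ?_) (forall3 ?_ h0 ?_) (forall3 ?_ ?_ h0) <;> intro p hp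
    · exact one_mul_le' (sv_le p) (hA p hp)
    · change |-vt p| ≤ _
      rw [abs_neg]; exact hv p hp
    · exact one_mul_le (cv_le p) (hA p hp)
    · exact one_mul_le (sv_le p) (hA p hp)
    · exact one_mul_le' (cv_le p) (hA p hp)
  bB := by
    have hn' := n_ge hn
    have h0 : ∀ p ∈ Rg 100, |(0:ℝ)| ≤ 4000 * n * s p.1 := fun p hp => by
      have := (mem_Rg hp).S0
      rw [abs_zero]; positivity
    have hv : ∀ p ∈ Rg 100, |vs p| ≤ 4000 * n * s p.1 := fun p hp =>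
      s1_le (mem_Rg hp) (K := 2) (k := 4) (by norm_num) (by norm_num) (by linarith)
        (mem_Rg hp).vs_le
    have hA : ∀ p ∈ Rg 100, |Bc n p| ≤ 4000 * n * s p.1 := fun p hp => (mem_Rg hp).Bc_le hn'
    refine forall3 (forall3 h0 hv ?_) (forall3 ?_ h0 ?_) (forall3 ?_ ?_ h0) <;> intro p hp
    · exact one_mul_le' (sv_le p) (hA p hp)
    · change |-vs p| ≤ _
      rw [abs_neg]; exact hv p hp
    · exact one_mul_le (cv_le p) (hA p hp)
    · exact one_mul_le (sv_le p) (hA p hp)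
    · exact one_mul_le' (cv_le p) (hA p hp)
  lim := by
    refine ⟨0, fun c => ⟨1 / 2, by norm_num, fun T' => ?_⟩⟩
    -- choose the far one of `1`, `-1`
    obtain ⟨a, b, ha, hb⟩ : ∃ a b : ℝ, (∀ k : ℕ, Real.cos (a + k * (2 * Real.pi)) = b) ∧
        1 ≤ |b - c| := by
      rcases le_total c 0 with hc | hc
      · refine ⟨0, 1, fun k => ?_, ?_⟩
        · rw [Real.cos_add_nat_mul_two_pi, Real.cos_zero]
        · rw [abs_of_nonneg (by linarith)]; linarith
      · refine ⟨Real.pi, -1, fun k => ?_, ?_⟩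
        · rw [Real.cos_add_nat_mul_two_pi, Real.cos_pi]
        · rw [abs_of_nonpos (by linarith)]; linarith
    -- `t = exp (a + 2πk)` with `k` large
    obtain ⟨k, hk⟩ := exists_nat_gt ((max T' 100 - a) / (2 * Real.pi))
    have hpi : 0 < 2 * Real.pi := by positivity
    rw [div_lt_iff₀ hpi] at hk
    set t := Real.exp (a + k * (2 * Real.pi)) with ht
    have h1 : max T' 100 ≤ t := by
      have := Real.add_one_le_exp (a + k * (2 * Real.pi))
      linarith
    refine ⟨t, (le_max_left _ _).trans h1, fun σ hσ => ?_⟩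
    have hR : (t, σ) ∈ Rg 100 := ⟨(le_max_right _ _).trans h1, hσ⟩
    have h2 := kf0_le (mem_Rg hR)
    have h3 : Real.log t = a + k * (2 * Real.pi) := Real.log_exp _
    change 1 / 2 ≤ |Real.cos (Real.log t - (1 - σ * σ) * f0 t) - c|
    have h4 : |Real.cos (Real.log t - (1 - σ * σ) * f0 t) - b| ≤ 1 / 2 := by
      have h5 := Real.abs_cos_sub_cos_le (Real.log t - (1 - σ * σ) * f0 t) (Real.log t)
      rw [h3, ha k, ← h3] at h5
      refine h5.trans ?_
      rw [show Real.log t - (1 - σ * σ) * f0 t - Real.log t = -((1 - σ * σ) * f0 t) by ring,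
        abs_neg]
      exact h2
    have h6 := abs_sub_abs_le_abs_sub (b - c)
      (b - Real.cos (Real.log t - (1 - σ * σ) * f0 t))
    have h7 : b - c - (b - Real.cos (Real.log t - (1 - σ * σ) * f0 t))
      = Real.cos (Real.log t - (1 - σ * σ) * f0 t) - c := by ring
    have h8 := abs_sub_comm b (Real.cos (Real.log t - (1 - σ * σ) * f0 t))
    rw [h7, h8] at h6
    linarith

end Pool.Agent.Y303.NL
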